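import Pool.Agent.E8helper69.AP.H

/-!
# Comparison with products of Euler products
-/

set_option autoImplicit false

namespace Pool.Agent.E8helper69.AP

open Complex MeasureTheory Finset Filter Topology Set NumberField IsDedekindDomain
open scoped ComplexConjugate ENNReal
open Pool.Agent.TH339.MP
open Pool.Agent.W350.Edge (ps divSet dimH_divSet)

section
variable {ι : Type*} [Fintype ι] {b : ι → PP → ℂ} {M : ι → ℝ}

lemma norm_lin (hb : ∀ k x, ‖b k x‖ ≤ M k / (x.2 + 1 : ℕ)) (c : ι → ℂ) (x : PP) :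
    ‖∑ k, c k * b k x‖ ≤ (∑ k, ‖c k‖ * M k) / (x.2 + 1 : ℕ) := by
  rw [Finset.sum_div]
  refine norm_sum_le_of_le _ fun k _ => ?_
  rw [norm_mul, mul_div_assoc]
  exact mul_le_mul_of_nonneg_left (hb k x) (norm_nonneg _)

lemma bl_lin (hb : ∀ k x, ‖b k x‖ ≤ M k / (x.2 + 1 : ℕ)) (c : ι → ℂ) :
    ∀ᵐ τ : ℝ, (∀ k, τ ∉ divSet (ap (b k))) ∧
      bl (fun x => ∑ k, c k * b k x) τ = ∑ k, c k * bl (b k) τ := by
  have h0 : ∀ᵐ τ : ℝ, ∀ k, τ ∉ divSet (ap (b k)) := by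
    rw [ae_all_iff]
    exact fun k => ae_notMem (hb k)
  filter_upwards [h0, ae_notMem (norm_lin hb c)] with τ h1 h3
  refine ⟨h1, ?_⟩
  have e1 : Tendsto (fun X => ∑ k, c k * PS (b k) X τ) atTop (𝓝 (∑ k, c k * bl (b k) τ)) :=
    tendsto_finsetSum _ fun k _ => (PS_tendsto (hb k) (h1 k)).const_mul _
  have e2 := PS_tendsto (norm_lin hb c) h3
  refine tendsto_nhds_unique e2 (e1.congr fun X => ?_)
  unfold PS
  simp_rw [Finset.mul_sum]
  rw [Finset.sum_comm]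
  refine Finset.sum_congr rfl fun x _ => ?_
  rw [Finset.sum_mul, Finset.sum_mul]
  refine Finset.sum_congr rfl fun k _ => ?_
  ring

lemma FF_lin (hb : ∀ k x, ‖b k x‖ ≤ M k / (x.2 + 1 : ℕ)) (c : ι → ℂ) {s : ℂ} (hs : 1 < s.re) :
    FF (fun x => ∑ k, c k * b k x) s = ∑ k, c k * FF (b k) s := by
  unfold FF
  have h1 : ∀ k, HasSum (fun x => c k * tm (b k) s x) (c k * ∑' x, tm (b k) s x) := fun k =>
    ((summable_tm (hb k) hs).hasSum).mul_left _
  have h2 := hasSum_sum (s := (Finset.univ : Finset ι)) fun k _ => h1 k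
  rw [← h2.tsum_eq]
  refine tsum_congr fun x => ?_
  unfold tm
  rw [Finset.sum_mul]
  refine Finset.sum_congr rfl fun k _ => ?_
  ring

end

lemma bl_zero (τ : ℝ) : bl (fun _ => 0) τ = 0 := by
  have hb : ∀ x : PP, ‖(fun _ : PP => (0 : ℂ)) x‖ ≤ (0 : ℝ) / (x.2 + 1 : ℕ) := fun x => by simp
  have h2 : ∀ n, ap (fun _ : PP => (0 : ℂ)) n = 0 := fun n => by
    unfold ap
    split_ifs <;> rfl
  have h1 : τ ∉ divSet (ap (fun _ : PP => (0 : ℂ))) := by
    intro h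
    apply h
    refine ⟨0, ?_⟩
    have : ps (ap (fun _ : PP => (0 : ℂ))) τ = fun _ => 0 := by
      funext X
      unfold Pool.Agent.W350.Edge.ps
      refine Finset.sum_eq_zero fun n _ => ?_
      unfold Pool.Agent.W350.Edge.term
      rw [h2]
      simp
    rw [this]
    exact tendsto_const_nhds
  refine tendsto_nhds_unique (PS_tendsto hb h1) ?_
  have : (fun X => PS (fun _ : PP => (0 : ℂ)) X τ) = fun _ => 0 := by
    funext X
    unfold PS
    simp
  rw [this]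
  exact tendsto_const_nhds

/-- the one-sided rigidity for one function -/
theorem rigid_zero {b : PP → ℂ} {M : ℝ} (hb : ∀ x, ‖b x‖ ≤ M / (x.2 + 1 : ℕ)) (hne : b ≠ 0) :
    ∃ ε : ℝ, 0 < ε ∧ Often {u | ε < (bl b u).re} := by
  have h0 : ∀ x : PP, ‖(0 : PP → ℂ) x‖ ≤ (0 : ℝ) / (x.2 + 1 : ℕ) := fun x => by simp
  obtain ⟨ε, hε, h⟩ := rigid hb h0 hne
  refine ⟨ε, hε, h.mono_ae (Eventually.of_forall fun u hu => ?_)⟩
  have hu' : (bl (0 : PP → ℂ) u).re + ε < (bl b u).re := hu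
  have : bl (0 : PP → ℂ) u = 0 := bl_zero u
  rw [this, Complex.zero_re, zero_add] at hu'
  exact hu'

theorem two_sided {b : PP → ℂ} {M : ℝ} (hb : ∀ x, ‖b x‖ ≤ M / (x.2 + 1 : ℕ)) (hne : b ≠ 0) :
    ∃ ε : ℝ, 0 < ε ∧ Often {u | ε < (bl b u).re} ∧ Often {u | (bl b u).re < -ε} := by
  obtain ⟨ε1, h1, h1'⟩ := rigid_zero hb hne
  have hb' : ∀ x, ‖(fun x => ∑ _k : Unit, (-1 : ℂ) * b x) x‖ ≤
      (∑ _k : Unit, ‖(-1 : ℂ)‖ * M) / (x.2 + 1 : ℕ) :=
    norm_lin (b := fun _ : Unit => b) (M := fun _ => M) (fun _ => hb) (fun _ => -1)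
  have hne' : (fun x => ∑ _k : Unit, (-1 : ℂ) * b x) ≠ 0 := by
    intro h
    apply hne
    funext x
    have := congrFun h x
    simpa using this
  obtain ⟨ε2, h2, h2'⟩ := rigid_zero hb' hne'
  refine ⟨min ε1 ε2, lt_min h1 h2, h1'.mono_ae (Eventually.of_forall fun u hu => ?_),
    h2'.mono_ae ?_⟩
  · have hu' : ε1 < (bl b u).re := hu
    exact lt_of_le_of_lt (min_le_left ε1 ε2) hu'
  filter_upwards [bl_lin (b := fun _ : Unit => b) (M := fun _ => M) (fun _ => hb)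
    (fun _ => (-1 : ℂ))] with u hu hu2
  have hu3 : ε2 < (bl (fun x => ∑ _k : Unit, (-1 : ℂ) * b x) u).re := hu2
  rw [hu.2] at hu3
  simp at hu3
  change (bl b u).re < -min ε1 ε2
  have := min_le_right ε1 ε2
  linarith

/-- **Comparison with products of Euler products.** -/
theorem family {r : ℕ} {K : Fin r → Type} [∀ k, Field (K k)] [∀ k, NumberField (K k)]
    {N : Fin r → ℕ} {w : Fin r → ℝ} {S : ∀ k, Set (HeightOneSpectrum (𝓞 (K k)))}
    {α : ∀ k, HeightOneSpectrum (𝓞 (K k)) → Fin (N k) → ℂ}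
    (hα : ∀ k v, v ∉ S k → ∀ j, ‖α k v j‖ ≤ (Ideal.absNorm v.asIdeal : ℝ) ^ (w k / 2))
    (a : Fin r → ℤ) :
    (∀ s : ℂ, 1 < s.re → ∏ k, LFun (S k) (α k) (s + (w k : ℂ) / 2) ^ a k = 1) ∨
    ∃ κ : ℝ, 1 < κ ∧
      Recurrent {τ | κ < ∏ k, modulus (S k) (α k) (w k / 2 + 1) τ ^ a k} ∧
      Recurrent {τ | ∏ k, modulus (S k) (α k) (w k / 2 + 1) τ ^ a k < κ⁻¹} := by
  set c : Fin r → ℂ := fun k => ((a k : ℤ) : ℂ) with hc
  set B : PP → ℂ := fun x => ∑ k, c k * cf (w k) (S k) (α k) x with hB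
  have hb : ∀ k x, ‖cf (w k) (S k) (α k) x‖ ≤
      ((Module.finrank ℚ (K k) : ℝ) * N k) / (x.2 + 1 : ℕ) := fun k x => norm_cf (hα k) x
  by_cases hne : B = 0
  · left
    intro s hs
    have h1 := FF_lin (b := fun k => cf (w k) (S k) (α k)) hb c hs
    have h2 : FF (fun x => ∑ k, c k * cf (w k) (S k) (α k) x) s = 0 := by
      change FF B s = 0
      rw [hne]
      unfold FF tm
      simp
    rw [h2] at h1
    calc ∏ k, LFun (S k) (α k) (s + (w k : ℂ) / 2) ^ a k =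
        ∏ k, Complex.exp (c k * FF (cf (w k) (S k) (α k)) s) := by
          refine Finset.prod_congr rfl fun k _ => ?_
          rw [LFun_eq (hα k) hs, ← Complex.exp_int_mul]
      _ = Complex.exp (∑ k, c k * FF (cf (w k) (S k) (α k)) s) := by rw [Complex.exp_sum]
      _ = 1 := by rw [← h1, Complex.exp_zero]
  · right
    obtain ⟨ε, hε, h1, h2⟩ := two_sided (norm_lin hb c) hne
    have hae := bl_lin (b := fun k => cf (w k) (S k) (α k)) hb c
    have hprod : ∀ τ : ℝ, (∀ k, τ ∉ divSet (ap (cf (w k) (S k) (α k)))) →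
        bl (fun x => ∑ k, c k * cf (w k) (S k) (α k) x) τ =
          ∑ k, c k * bl (cf (w k) (S k) (α k)) τ →
        ∏ k, modulus (S k) (α k) (w k / 2 + 1) τ ^ a k =
          Real.exp (bl (fun x => ∑ k, c k * cf (w k) (S k) (α k) x) τ).re := by
      intro τ h3 h4
      rw [h4, Complex.re_sum, Real.exp_sum]
      refine Finset.prod_congr rfl fun k _ => ?_
      rw [modulus_eq (hα k) (h3 k), ← Real.rpow_intCast, ← Real.exp_mul, mul_comm]
      congr 1
      have : c k = (((a k : ℤ) : ℝ) : ℂ) := by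
        rw [hc]
        push_cast
        rfl
      rw [this, Complex.re_ofReal_mul]
    refine ⟨Real.exp ε, Real.one_lt_exp_iff.2 hε, recurrent_of_often (h1.mono_ae ?_),
      recurrent_of_often (h2.mono_ae ?_)⟩
    · filter_upwards [hae] with τ h3 h4
      change Real.exp ε < ∏ k, modulus (S k) (α k) (w k / 2 + 1) τ ^ a k
      rw [hprod τ h3.1 h3.2]
      exact Real.exp_lt_exp.2 h4
    · filter_upwards [hae] with τ h3 h4
      change ∏ k, modulus (S k) (α k) (w k / 2 + 1) τ ^ a k < (Real.exp ε)⁻¹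
      rw [hprod τ h3.1 h3.2, ← Real.exp_neg]
      exact Real.exp_lt_exp.2 h4

end Pool.Agent.E8helper69.AP
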