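import Pool.Agent.E8helper17.MC.A2

/-!
# Mean values over long windows
-/

set_option autoImplicit false

namespace Pool.Agent.E8helper69.AP

open Complex MeasureTheory Finset Filter Topology Set
open Pool.Agent.TH339.MP
open Pool.Agent.E8helper17.MC (integral_norm_diff integral_sq integrableOn_sq integrableOn_diff
  integrableOn_bl log_qq_pos)

/-- The means of `f` over all windows of length `≥ H₀` are close to `A`. -/
def Mean (f : ℝ → ℂ) (A : ℂ) : Prop :=
  (∀ a c : ℝ, IntervalIntegrable f volume a c) ∧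
    ∀ η : ℝ, 0 < η → ∃ H₀ : ℝ, 0 < H₀ ∧ ∀ H : ℝ, H₀ ≤ H → ∀ T : ℝ,
      ‖(∫ u in T..(T + H), f u) - H * A‖ ≤ η * H

lemma Mean.add {f g : ℝ → ℂ} {A B : ℂ} (hf : Mean f A) (hg : Mean g B) :
    Mean (fun u => f u + g u) (A + B) := by
  refine ⟨fun a c => (hf.1 a c).add (hg.1 a c), fun η hη => ?_⟩
  obtain ⟨H1, h1, h1'⟩ := hf.2 (η / 2) (half_pos hη)
  obtain ⟨H2, h2, h2'⟩ := hg.2 (η / 2) (half_pos hη)
  refine ⟨max H1 H2, lt_max_of_lt_left h1, fun H hH T => ?_⟩
  have e1 := h1' H ((le_max_left _ _).trans hH) T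
  have e2 := h2' H ((le_max_right _ _).trans hH) T
  rw [intervalIntegral.integral_add (hf.1 _ _) (hg.1 _ _)]
  have e3 : (∫ u in T..(T + H), f u) + (∫ u in T..(T + H), g u) - H * (A + B) =
      ((∫ u in T..(T + H), f u) - H * A) + ((∫ u in T..(T + H), g u) - H * B) := by ring
  rw [e3]
  refine (norm_add_le _ _).trans ?_
  linarith

lemma Mean.const_mul {f : ℝ → ℂ} {A : ℂ} (hf : Mean f A) (z : ℂ) :
    Mean (fun u => z * f u) (z * A) := by
  refine ⟨fun a c => (hf.1 a c).const_mul z, fun η hη => ?_⟩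
  obtain ⟨H1, h1, h1'⟩ := hf.2 (η / (‖z‖ + 1)) (by positivity)
  refine ⟨H1, h1, fun H hH T => ?_⟩
  have e1 := h1' H hH T
  rw [intervalIntegral.integral_const_mul]
  have e3 : z * (∫ u in T..(T + H), f u) - H * (z * A) =
      z * ((∫ u in T..(T + H), f u) - H * A) := by ring
  rw [e3, norm_mul]
  have hH0 : 0 ≤ H := h1.le.trans hH
  calc ‖z‖ * ‖(∫ u in T..(T + H), f u) - H * A‖ ≤ ‖z‖ * (η / (‖z‖ + 1) * H) :=
        mul_le_mul_of_nonneg_left e1 (norm_nonneg _)
    _ = (‖z‖ / (‖z‖ + 1)) * (η * H) := by ring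
    _ ≤ 1 * (η * H) := by
        refine mul_le_mul_of_nonneg_right ?_ (by positivity)
        rw [div_le_one (by positivity)]
        linarith
    _ = η * H := one_mul _

lemma Mean.zero : Mean (fun _ => 0) 0 := by
  refine ⟨fun a c => by simp, fun η hη => ⟨1, one_pos, fun H hH T => ?_⟩⟩
  simp
  positivity

lemma Mean.sum {ι : Type*} (s : Finset ι) {f : ι → ℝ → ℂ} {A : ι → ℂ}
    (h : ∀ i ∈ s, Mean (f i) (A i)) : Mean (fun u => ∑ i ∈ s, f i u) (∑ i ∈ s, A i) := by
  classical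
  induction s using Finset.induction_on with
  | empty => simpa using Mean.zero
  | insert a s ha ih =>
    simp only [Finset.sum_insert ha]
    exact (h a (Finset.mem_insert_self _ _)).add
      (ih fun i hi => h i (Finset.mem_insert_of_mem hi))

lemma norm_integral_ee {μ : ℝ} (hμ : μ ≠ 0) (a c : ℝ) : ‖∫ u in a..c, ee μ u‖ ≤ 2 / |μ| := by
  have hmI : (μ * I : ℂ) ≠ 0 := mul_ne_zero (by exact_mod_cast hμ) I_ne_zero
  have h2 := integral_exp_mul_complex (a := a) (b := c) hmI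
  have h3 : ∀ x : ℝ, ee μ x = Complex.exp (μ * I * x) := by
    intro x
    rw [ee]
    congr 1
    push_cast
    ring
  simp_rw [h3]
  rw [h2, ← h3, ← h3, norm_div, norm_mul, norm_I, mul_one, Complex.norm_real, Real.norm_eq_abs]
  refine div_le_div_of_nonneg_right ?_ (abs_nonneg _)
  refine (norm_sub_le _ _).trans ?_
  rw [norm_ee, norm_ee]
  norm_num

lemma Mean.ee (μ : ℝ) : Mean (ee μ) (if μ = 0 then 1 else 0) := by
  refine ⟨fun a c => (continuous_ee μ).intervalIntegrable _ _, fun η hη => ?_⟩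
  by_cases h : μ = 0
  · refine ⟨1, one_pos, fun H hH T => ?_⟩
    rw [if_pos h, h]
    simp only [ee_zero_left]
    simp
    positivity
  · have hμ : 0 < |μ| := abs_pos.2 h
    refine ⟨2 / |μ| / η, by positivity, fun H hH T => ?_⟩
    rw [if_neg h, mul_zero, sub_zero]
    refine (norm_integral_ee h _ _).trans ?_
    rw [div_le_iff₀ hη] at hH
    linarith

/-- the integral over a window from those over unit intervals -/
lemma window {h : ℝ → ℝ} (hi : ∀ a c : ℝ, IntervalIntegrable h volume a c) (h0 : ∀ u, 0 ≤ h u)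
    {ε : ℝ} (hε : ∀ t : ℝ, ∫ u in t..(t + 1), h u ≤ ε) {H : ℝ} (hH : 0 ≤ H) (T : ℝ) :
    ∫ u in T..(T + H), h u ≤ ε * (H + 1) := by
  have hε0 : 0 ≤ ε := (intervalIntegral.integral_nonneg (by linarith) fun u _ => h0 u).trans (hε 0)
  have h1 : ∫ u in T..(T + H), h u ≤ ∫ u in T..(T + ⌈H⌉₊), h u := by
    refine intervalIntegral.integral_mono_interval le_rfl (by linarith) (by
      have := Nat.le_ceil H
      linarith) (Eventually.of_forall fun u => h0 u) (hi _ _)
  have h2 : ∑ k ∈ Finset.range ⌈H⌉₊, ∫ u in (T + (k : ℕ))..(T + ((k + 1 : ℕ) : ℝ)), h u =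
      ∫ u in (T + ((0 : ℕ) : ℝ))..(T + ⌈H⌉₊), h u :=
    intervalIntegral.sum_integral_adjacent_intervals (a := fun k : ℕ => T + (k : ℝ))
      fun k _ => hi _ _
  rw [Nat.cast_zero, add_zero] at h2
  rw [← h2] at h1
  refine h1.trans ?_
  have h3 : ∀ k ∈ Finset.range ⌈H⌉₊, ∫ u in (T + (k : ℕ))..(T + ((k + 1 : ℕ) : ℝ)), h u ≤ ε := by
    intro k _
    have := hε (T + k)
    push_cast
    rw [← add_assoc]
    exact this
  refine (Finset.sum_le_sum h3).trans ?_
  rw [Finset.sum_const, Finset.card_range, nsmul_eq_mul, mul_comm]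
  refine mul_le_mul_of_nonneg_left ?_ hε0
  exact (Nat.ceil_lt_add_one hH).le

lemma Mean.of_approx {f : ℝ → ℂ} {A : ℂ} (hf : ∀ a c : ℝ, IntervalIntegrable f volume a c)
    (h : ∀ η : ℝ, 0 < η → ∃ g B, Mean g B ∧ ‖B - A‖ ≤ η ∧
      ∀ t : ℝ, ∫ u in t..(t + 1), ‖f u - g u‖ ≤ η) : Mean f A := by
  refine ⟨hf, fun η hη => ?_⟩
  obtain ⟨g, B, hg, hBA, hfg⟩ := h (η / 4) (by positivity)
  obtain ⟨H0, h0, h1⟩ := hg.2 (η / 4) (by positivity)
  refine ⟨max H0 1, lt_max_of_lt_left h0, fun H hH T => ?_⟩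
  have hH1 : 1 ≤ H := (le_max_right _ _).trans hH
  have e1 := h1 H ((le_max_left _ _).trans hH) T
  have e2 : (∫ u in T..(T + H), f u) - H * A = (∫ u in T..(T + H), (f u - g u)) +
      ((∫ u in T..(T + H), g u) - H * B) + H * (B - A) := by
    rw [intervalIntegral.integral_sub (hf _ _) (hg.1 _ _)]
    ring
  rw [e2]
  have e3 : ‖∫ u in T..(T + H), (f u - g u)‖ ≤ η / 4 * (H + 1) := by
    refine (intervalIntegral.norm_integral_le_integral_norm (by linarith)).trans ?_
    exact window (fun a c => ((hf a c).sub (hg.1 a c)).norm) (fun u => norm_nonneg _) hfg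
      (by linarith) T
  have e4 : ‖(H : ℂ) * (B - A)‖ ≤ H * (η / 4) := by
    rw [norm_mul, Complex.norm_real, Real.norm_of_nonneg (by linarith)]
    exact mul_le_mul_of_nonneg_left hBA (by linarith)
  refine (norm_add₃_le).trans ?_
  nlinarith

section
variable {b : PP → ℂ} {M : ℝ}

lemma intervalIntegrable_bl (hb : ∀ x, ‖b x‖ ≤ M / (x.2 + 1 : ℕ)) (a c : ℝ) :
    IntervalIntegrable (bl b) volume a c := by
  have h1 : LocallyIntegrable (bl b) volume := by
    intro x
    refine ⟨Icc (x - 1 / 2) (x - 1 / 2 + 1), Icc_mem_nhds (by linarith) (by linarith), ?_⟩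
    exact integrableOn_bl hb _
  exact (h1.integrableOn_isCompact isCompact_uIcc).intervalIntegrable

/-- the coefficient of `e^{-iμτ}` in the boundary function -/
noncomputable def Ac (b : PP → ℂ) (μ : ℝ) : ℂ := by
  classical exact if h : ∃ x : PP, Real.log (qq x) = μ then b h.choose / (qq h.choose : ℂ) else 0

lemma log_qq_injective {x y : PP} (h : Real.log (qq x) = Real.log (qq y)) : x = y := by
  have hx : (0 : ℝ) < qq x := by exact_mod_cast (by have := two_le_qq x; omega : 0 < qq x)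
  have hy : (0 : ℝ) < qq y := by exact_mod_cast (by have := two_le_qq y; omega : 0 < qq y)
  have h1 := Real.log_injOn_pos (Set.mem_Ioi.2 hx) (Set.mem_Ioi.2 hy) h
  exact qq_injective (by exact_mod_cast h1)

lemma Ac_log (b : PP → ℂ) (x : PP) : Ac b (Real.log (qq x)) = b x / (qq x : ℂ) := by
  unfold Ac
  have h : ∃ y : PP, Real.log (qq y) = Real.log (qq x) := ⟨x, rfl⟩
  rw [dif_pos h, log_qq_injective h.choose_spec]

lemma Ac_none (b : PP → ℂ) {μ : ℝ} (h : ∀ x : PP, Real.log (qq x) ≠ μ) : Ac b μ = 0 := by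
  unfold Ac
  rw [dif_neg]
  rintro ⟨x, hx⟩
  exact h x hx

lemma Ac_nonpos (b : PP → ℂ) {μ : ℝ} (h : μ ≤ 0) : Ac b μ = 0 :=
  Ac_none b fun x hx => by
    have := log_qq_pos x
    rw [hx] at this
    linarith

lemma mean_PS (b : PP → ℂ) (X : ℕ) (μ : ℝ) :
    Mean (fun u => PS b X u * ee μ u)
      (∑ x ∈ TX X, (b x * (wt 1 x : ℂ)) * if fr x + μ = 0 then 1 else 0) := by
  have h1 : (fun u => PS b X u * ee μ u) =
      fun u => ∑ x ∈ TX X, (b x * (wt 1 x : ℂ)) * ee (fr x + μ) u := by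
    funext u
    unfold PS
    rw [Finset.sum_mul]
    refine Finset.sum_congr rfl fun x _ => ?_
    rw [ee_add_left]
    ring
  rw [h1]
  exact Mean.sum _ fun x _ => (Mean.ee (fr x + μ)).const_mul _

lemma sum_eventually (b : PP → ℂ) (μ : ℝ) : ∀ᶠ X : ℕ in atTop,
    (∑ x ∈ TX X, (b x * (wt 1 x : ℂ)) * if fr x + μ = 0 then 1 else 0) = Ac b μ := by
  by_cases h : ∃ x : PP, Real.log (qq x) = μ
  · obtain ⟨x, rfl⟩ := h
    filter_upwards [eventually_ge_atTop (qq x)] with X hX
    rw [Ac_log, Finset.sum_eq_single x]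
    · rw [fr_eq, neg_add_cancel, if_pos rfl, mul_one, wt_one]
      push_cast
      ring
    · intro y _ hy
      rw [if_neg, mul_zero]
      intro h
      rw [fr_eq] at h
      exact hy (log_qq_injective (by linarith))
    · intro hx
      exact absurd ((mem_TX X x).2 hX) hx
  · push Not at h
    refine Eventually.of_forall fun X => ?_
    rw [Ac_none b h]
    refine Finset.sum_eq_zero fun x _ => ?_
    rw [if_neg, mul_zero]
    intro h1
    rw [fr_eq] at h1
    exact h x (by linarith)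

lemma tail_tendsto (M : ℝ) : Tendsto (fun X : ℕ => (1 + 64800 * M ^ 2) / Real.sqrt (Real.log X))
    atTop (𝓝 0) := by
  refine Tendsto.div_atTop tendsto_const_nhds ?_
  exact Real.tendsto_sqrt_atTop.comp (Real.tendsto_log_atTop.comp tendsto_natCast_atTop_atTop)

lemma approx1 (hb : ∀ x, ‖b x‖ ≤ M / (x.2 + 1 : ℕ)) {η : ℝ} (hη : 0 < η) :
    ∀ᶠ X : ℕ in atTop, ∀ t : ℝ, ∫ u in t..(t + 1), ‖bl b u - PS b X u‖ ≤ η := by
  filter_upwards [(tail_tendsto M).eventually (gt_mem_nhds hη), eventually_ge_atTop 2] with X h1 h2 t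
  rw [intervalIntegral.integral_of_le (by linarith), ← integral_Icc_eq_integral_Ioc]
  exact (integral_norm_diff hb h2 t).trans h1.le

/-- **The Bohr–Fourier coefficients.** -/
theorem mean_bl (hb : ∀ x, ‖b x‖ ≤ M / (x.2 + 1 : ℕ)) (μ : ℝ) :
    Mean (fun u => bl b u * ee μ u) (Ac b μ) := by
  refine Mean.of_approx (fun a c => (intervalIntegrable_bl hb a c).mul_continuousOn
    (continuous_ee μ).continuousOn) fun η hη => ?_
  obtain ⟨X, h1, h2⟩ := ((approx1 hb hη).and (sum_eventually b μ)).exists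
  refine ⟨_, _, mean_PS b X μ, ?_, fun t => ?_⟩
  · rw [h2, sub_self, norm_zero]
    exact hη.le
  · refine le_trans (le_of_eq ?_) (h1 t)
    refine intervalIntegral.integral_congr fun u _ => ?_
    change ‖bl b u * ee μ u - PS b X u * ee μ u‖ = _
    rw [← sub_mul, norm_mul, norm_ee, mul_one]

end

end Pool.Agent.E8helper69.AP
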