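import Pool.Agent.E8helper69.AP.A

/-!
# Large values in all long windows
-/

set_option autoImplicit false

namespace Pool.Agent.E8helper69.AP

open Complex MeasureTheory Finset Filter Topology Set
open scoped ComplexConjugate ENNReal
open Pool.Agent.TH339.MP
open Pool.Agent.E8helper17.MC (integral_norm_diff integral_sq integrableOn_sq integrableOn_diff
  integrableOn_bl log_qq_pos)

/-- `E` meets every window of a certain length in a set of measure at least a certain positive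
number. -/
def Often (E : Set ℝ) : Prop :=
  ∃ H δ : ℝ, 0 < H ∧ 0 < δ ∧ ∀ T : ℝ, ENNReal.ofReal δ ≤ volume (E ∩ Icc T (T + H))

lemma Often.mono_ae {E F : Set ℝ} (h : Often E) (hEF : ∀ᵐ u : ℝ, u ∈ E → u ∈ F) : Often F := by
  obtain ⟨H, δ, h1, h2, h3⟩ := h
  refine ⟨H, δ, h1, h2, fun T => (h3 T).trans (measure_mono_ae ?_)⟩
  filter_upwards [hEF] with u hu hu1
  exact ⟨hu hu1.1, hu1.2⟩

/-- locally square integrable with a uniform bound -/
def SqB (f : ℝ → ℝ) (C : ℝ) : Prop :=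
  (∀ a c : ℝ, IntervalIntegrable f volume a c) ∧
    (∀ a c : ℝ, IntervalIntegrable (fun u => f u ^ 2) volume a c) ∧
      ∀ t : ℝ, ∫ u in t..(t + 1), f u ^ 2 ≤ C

lemma sq_sub_const_le (x c : ℝ) : (x - c) ^ 2 ≤ 2 * x ^ 2 + 2 * c ^ 2 := by nlinarith [sq_nonneg (x + c)]

theorem mass {f w : ℝ → ℝ} {c κ W C H : ℝ} (hf : SqB f C) (hw : Continuous w) (hw0 : ∀ u, 0 ≤ w u)
    (hW : ∀ u, w u ≤ W) (hH : 0 < H) (hκ : 0 < κ)
    (h : ∀ T : ℝ, κ ≤ ∫ u in T..(T + H), w u * (f u - c)) : Often {u | c < f u} := by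
  obtain ⟨hf1, hf2, hf3⟩ := hf
  have hW0 : 0 ≤ W := (hw0 0).trans (hW 0)
  have hC0 : 0 ≤ C :=
    (intervalIntegral.integral_nonneg (by linarith) fun u _ => sq_nonneg _).trans (hf3 0)
  -- the bound for the square of `f - c`
  set C' : ℝ := 2 * (C * (H + 1)) + 2 * c ^ 2 * H with hC'
  have hC'0 : 0 ≤ C' := by positivity
  have hg2 : ∀ a c' : ℝ, IntervalIntegrable (fun u => (f u - c) ^ 2) volume a c' := by
    intro a c'
    have : (fun u => (f u - c) ^ 2) = fun u => f u ^ 2 - 2 * c * f u + c ^ 2 := by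
      funext u
      ring
    rw [this]
    exact ((hf2 a c').sub ((hf1 a c').const_mul _)).add intervalIntegrable_const
  have hsq : ∀ T : ℝ, ∫ u in T..(T + H), (f u - c) ^ 2 ≤ C' := by
    intro T
    have h1 : ∫ u in T..(T + H), (f u - c) ^ 2 ≤ ∫ u in T..(T + H), (2 * f u ^ 2 + 2 * c ^ 2) := by
      refine intervalIntegral.integral_mono (by linarith) (hg2 _ _)
        (((hf2 _ _).const_mul 2).add intervalIntegrable_const) fun u => sq_sub_const_le _ _
    refine h1.trans ?_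
    rw [intervalIntegral.integral_add ((hf2 _ _).const_mul 2) intervalIntegrable_const,
      intervalIntegral.integral_const_mul, intervalIntegral.integral_const]
    have h2 := window (h := fun u => f u ^ 2) hf2 (fun u => sq_nonneg _) hf3 hH.le T
    rw [smul_eq_mul]
    nlinarith
  set s : ℝ := (W + 1) * (C' + 1) / (2 * κ) with hs
  have hs0 : 0 < s := by positivity
  set δ : ℝ := κ / (2 * (W + 1) * s) with hδ
  have hδ0 : 0 < δ := by positivity
  refine ⟨H, δ, hH, hδ0, fun T => ?_⟩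
  set μ : Measure ℝ := volume.restrict (Icc T (T + H)) with hμ
  have hint : Integrable (fun u => w u * (f u - c)) μ := by
    have h1 : IntervalIntegrable (fun u => w u * (f u - c)) volume T (T + H) :=
      ((hf1 _ _).sub intervalIntegrable_const).continuousOn_mul hw.continuousOn
    rw [intervalIntegrable_iff_integrableOn_Icc_of_le (by linarith)] at h1
    exact h1
  have hint2 : Integrable (fun u => (f u - c) ^ 2) μ := by
    have h1 := hg2 T (T + H)
    rw [intervalIntegrable_iff_integrableOn_Icc_of_le (by linarith)] at h1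
    exact h1
  have hk : κ ≤ ∫ u, w u * (f u - c) ∂μ := by
    have h1 := h T
    rw [intervalIntegral.integral_of_le (by linarith), ← integral_Icc_eq_integral_Ioc] at h1
    exact h1
  have hk2 : ∫ u, (f u - c) ^ 2 ∂μ ≤ C' := by
    have h1 := hsq T
    rw [intervalIntegral.integral_of_le (by linarith), ← integral_Icc_eq_integral_Ioc] at h1
    exact h1
  have e1 : ENNReal.ofReal κ ≤ ∫⁻ u, ENNReal.ofReal (w u * (f u - c)) ∂μ := by
    rw [integral_eq_lintegral_pos_part_sub_lintegral_neg_part hint] at hk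
    have h1 : κ ≤ (∫⁻ u, ENNReal.ofReal (w u * (f u - c)) ∂μ).toReal := by
      have := ENNReal.toReal_nonneg (a := ∫⁻ u, ENNReal.ofReal (-(w u * (f u - c))) ∂μ)
      linarith
    exact ENNReal.ofReal_le_of_le_toReal h1
  have e2 : ∫⁻ u, ENNReal.ofReal (w u * (f u - c)) ∂μ ≤
      ENNReal.ofReal ((W + 1) * s) * μ {u | c < f u} + ENNReal.ofReal (κ / 2) := by
    have h1 : ∀ u, ENNReal.ofReal (w u * (f u - c)) ≤
        ({u | c < f u} : Set ℝ).indicator (fun _ => ENNReal.ofReal ((W + 1) * s)) u +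
          ENNReal.ofReal ((W + 1) / (4 * s) * (f u - c) ^ 2) := by
      intro u
      by_cases hu : c < f u
      · rw [Set.indicator_of_mem (by exact hu), ← ENNReal.ofReal_add (by positivity) (by positivity)]
        refine ENNReal.ofReal_le_ofReal ?_
        have hpos : 0 < f u - c := by linarith
        have h2 : w u * (f u - c) ≤ (W + 1) * (f u - c) :=
          mul_le_mul_of_nonneg_right (by linarith [hW u]) hpos.le
        refine h2.trans ?_
        have h3 : (f u - c) ≤ s + (f u - c) ^ 2 / (4 * s) := by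
          rw [← sub_nonneg]
          have h4 : s + (f u - c) ^ 2 / (4 * s) - (f u - c) =
              (2 * s - (f u - c)) ^ 2 / (4 * s) := by
            field_simp
            ring
          rw [h4]
          positivity
        calc (W + 1) * (f u - c) ≤ (W + 1) * (s + (f u - c) ^ 2 / (4 * s)) :=
              mul_le_mul_of_nonneg_left h3 (by linarith)
          _ = _ := by ring
      · have h2 : w u * (f u - c) ≤ 0 :=
          mul_nonpos_of_nonneg_of_nonpos (hw0 u) (by linarith [not_lt.1 hu])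
        rw [ENNReal.ofReal_of_nonpos h2]
        exact zero_le
    refine (lintegral_mono h1).trans ?_
    have hm : AEMeasurable (fun u => ENNReal.ofReal ((W + 1) / (4 * s) * (f u - c) ^ 2)) μ :=
      (hint2.1.aemeasurable.const_mul _).ennreal_ofReal
    rw [lintegral_add_right' _ hm]
    refine add_le_add (lintegral_indicator_const_le _ _) ?_
    have h3 : Integrable (fun u => (W + 1) / (4 * s) * (f u - c) ^ 2) μ := hint2.const_mul _
    rw [← ofReal_integral_eq_lintegral_ofReal h3 (Eventually.of_forall fun u => by positivity)]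
    refine ENNReal.ofReal_le_ofReal ?_
    rw [integral_const_mul]
    have h4 : (W + 1) / (4 * s) * ∫ u, (f u - c) ^ 2 ∂μ ≤ (W + 1) / (4 * s) * (C' + 1) :=
      mul_le_mul_of_nonneg_left (by linarith) (by positivity)
    refine h4.trans (le_of_eq ?_)
    rw [hs]
    field_simp
    ring
  have e3 : ENNReal.ofReal κ = ENNReal.ofReal (κ / 2) + ENNReal.ofReal (κ / 2) := by
    rw [← ENNReal.ofReal_add (by positivity) (by positivity)]
    congr 1
    ring
  have e4 : ENNReal.ofReal (κ / 2) ≤ ENNReal.ofReal ((W + 1) * s) * μ {u | c < f u} := by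
    have h1 := e1.trans e2
    rw [e3] at h1
    exact (ENNReal.add_le_add_iff_right ENNReal.ofReal_ne_top).1 h1
  have e5 : μ {u | c < f u} = volume ({u | c < f u} ∩ Icc T (T + H)) :=
    Measure.restrict_apply' measurableSet_Icc
  rw [← e5]
  have e6 : ENNReal.ofReal (κ / 2) = ENNReal.ofReal ((W + 1) * s) * ENNReal.ofReal δ := by
    rw [← ENNReal.ofReal_mul (by positivity)]
    congr 1
    rw [hδ]
    field_simp
  rw [e6] at e4
  have hne : ENNReal.ofReal ((W + 1) * s) ≠ 0 := by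
    rw [Ne, ENNReal.ofReal_eq_zero, not_le]
    positivity
  exact (ENNReal.mul_le_mul_iff_right hne ENNReal.ofReal_ne_top).1 e4

section
variable {b : PP → ℂ} {M : ℝ}

lemma norm_PS_le (hb : ∀ x, ‖b x‖ ≤ M / (x.2 + 1 : ℕ)) (X : ℕ) (u : ℝ) :
    ‖PS b X u‖ ≤ ∑ x ∈ TX X, M * ce x := by
  unfold PS
  refine norm_sum_le_of_le _ fun x _ => ?_
  rw [norm_mul, norm_ee, mul_one]
  exact norm_coef hb x

lemma sq_integrable (hb : ∀ x, ‖b x‖ ≤ M / (x.2 + 1 : ℕ)) (X : ℕ) (hX : 2 ≤ X) (a c : ℝ) :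
    IntervalIntegrable (fun u => ‖bl b u - PS b X u‖ ^ 2) volume a c := by
  have h1 : LocallyIntegrable (fun u => ‖bl b u - PS b X u‖ ^ 2) volume := by
    intro x
    refine ⟨Icc (x - 1 / 2) (x - 1 / 2 + 1), Icc_mem_nhds (by linarith) (by linarith), ?_⟩
    exact integrableOn_sq hb hX _
  exact (h1.integrableOn_isCompact isCompact_uIcc).intervalIntegrable

lemma sq_bound (hb : ∀ x, ‖b x‖ ≤ M / (x.2 + 1 : ℕ)) {X : ℕ} (hX : 2 ≤ X) (t : ℝ) :
    ∫ u in t..(t + 1), ‖bl b u - PS b X u‖ ^ 2 ≤ 64800 * M ^ 2 / Real.log X := by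
  rw [intervalIntegral.integral_of_le (by linarith), ← integral_Icc_eq_integral_Ioc]
  exact integral_sq hb hX t

/-- the boundary function is locally square integrable, uniformly -/
lemma sqB_norm (hb : ∀ x, ‖b x‖ ≤ M / (x.2 + 1 : ℕ)) : ∃ C : ℝ, SqB (fun u => ‖bl b u‖) C := by
  set P : ℝ := ∑ x ∈ TX 2, M * ce x with hP
  have hle : ∀ u, ‖bl b u‖ ^ 2 ≤ 2 * ‖bl b u - PS b 2 u‖ ^ 2 + 2 * P ^ 2 := by
    intro u
    have h1 : ‖bl b u‖ ≤ ‖bl b u - PS b 2 u‖ + P := by
      have h2 : bl b u = (bl b u - PS b 2 u) + PS b 2 u := by ring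
      calc ‖bl b u‖ = ‖(bl b u - PS b 2 u) + PS b 2 u‖ := by rw [← h2]
        _ ≤ ‖bl b u - PS b 2 u‖ + ‖PS b 2 u‖ := norm_add_le _ _
        _ ≤ _ := by
          have := norm_PS_le hb 2 u
          linarith
    have h2 : 0 ≤ ‖bl b u‖ := norm_nonneg _
    nlinarith [sq_nonneg (‖bl b u - PS b 2 u‖ - P), pow_le_pow_left₀ h2 h1 2]
  have hint : ∀ a c : ℝ, IntervalIntegrable (fun u => 2 * ‖bl b u - PS b 2 u‖ ^ 2 + 2 * P ^ 2)
      volume a c := fun a c => ((sq_integrable hb 2 le_rfl a c).const_mul 2).add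
        intervalIntegrable_const
  have hi2 : ∀ a c : ℝ, IntervalIntegrable (fun u => ‖bl b u‖ ^ 2) volume a c := by
    intro a c
    refine (hint a c).mono_fun ?_ (Eventually.of_forall fun u => ?_)
    · exact ((intervalIntegrable_bl hb a c).def'.1.norm.aemeasurable.pow_const
        2).aestronglyMeasurable
    · change ‖‖bl b u‖ ^ 2‖ ≤ ‖2 * ‖bl b u - PS b 2 u‖ ^ 2 + 2 * P ^ 2‖
      rw [Real.norm_of_nonneg (by positivity), Real.norm_of_nonneg (by positivity)]
      exact hle u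
  refine ⟨2 * (64800 * M ^ 2 / Real.log (2 : ℕ)) + 2 * P ^ 2, fun a c =>
    (intervalIntegrable_bl hb a c).norm, hi2, fun t => ?_⟩
  have h1 : ∫ u in t..(t + 1), ‖bl b u‖ ^ 2 ≤
      ∫ u in t..(t + 1), (2 * ‖bl b u - PS b 2 u‖ ^ 2 + 2 * P ^ 2) :=
    intervalIntegral.integral_mono (by linarith) (hi2 _ _) (hint _ _) hle
  refine h1.trans ?_
  rw [intervalIntegral.integral_add ((sq_integrable hb 2 le_rfl _ _).const_mul 2)
    intervalIntegrable_const, intervalIntegral.integral_const_mul, intervalIntegral.integral_const]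
  have h2 := sq_bound hb (le_refl 2) t
  rw [smul_eq_mul]
  linarith

lemma sqB_re (hb : ∀ x, ‖b x‖ ≤ M / (x.2 + 1 : ℕ)) : ∃ C : ℝ, SqB (fun u => (bl b u).re) C := by
  obtain ⟨C, h1, h2, h3⟩ := sqB_norm hb
  have hre : ∀ a c : ℝ, IntervalIntegrable (fun u => (bl b u).re) volume a c := fun a c =>
    ⟨(intervalIntegrable_bl hb a c).1.re, (intervalIntegrable_bl hb a c).2.re⟩
  have hle : ∀ u, (bl b u).re ^ 2 ≤ ‖bl b u‖ ^ 2 := fun u => by
    rw [← sq_abs]
    exact pow_le_pow_left₀ (abs_nonneg _) (Complex.abs_re_le_norm _) 2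
  have h4 : ∀ a c : ℝ, IntervalIntegrable (fun u => (bl b u).re ^ 2) volume a c := by
    intro a c
    refine (h2 a c).mono_fun ?_ (Eventually.of_forall fun u => ?_)
    · exact ((hre a c).def'.1.aemeasurable.pow_const 2).aestronglyMeasurable
    · change ‖(bl b u).re ^ 2‖ ≤ ‖‖bl b u‖ ^ 2‖
      rw [Real.norm_of_nonneg (by positivity), Real.norm_of_nonneg (by positivity)]
      exact hle u
  exact ⟨C, hre, h4, fun t => (intervalIntegral.integral_mono (by linarith) (h4 _ _) (h2 _ _)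
    hle).trans (h3 t)⟩

/-- the resonator -/
noncomputable def Rs (A : Finset ℕ) (r : ℕ → ℂ) (u : ℝ) : ℂ := ∑ n ∈ A, r n * ee (Real.log n) u

lemma continuous_Rs (A : Finset ℕ) (r : ℕ → ℂ) : Continuous (Rs A r) := by
  unfold Rs
  exact continuous_finsetSum _ fun x _ => continuous_const.mul (continuous_ee _)

lemma sq_Rs (A : Finset ℕ) (r : ℕ → ℂ) (u : ℝ) : ((‖Rs A r u‖ ^ 2 : ℝ) : ℂ) =
    ∑ n ∈ A, ∑ m ∈ A, (r n * conj (r m)) * ee (Real.log n - Real.log m) u := by
  rw [← Complex.normSq_eq_norm_sq, Complex.normSq_eq_conj_mul_self, mul_comm]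
  unfold Rs
  rw [map_sum, sum_mul_sum]
  refine Finset.sum_congr rfl fun n _ => Finset.sum_congr rfl fun m _ => ?_
  rw [map_mul, sub_eq_add_neg, ee_add_left, ee_neg_left]
  ring

lemma mean_sq (A : Finset ℕ) (hA : ∀ n ∈ A, n ≠ 0) (r : ℕ → ℂ) :
    Mean (fun u => ((‖Rs A r u‖ ^ 2 : ℝ) : ℂ)) ((∑ n ∈ A, ‖r n‖ ^ 2 : ℝ) : ℂ) := by
  classical
  have h1 : Mean (fun u => ((‖Rs A r u‖ ^ 2 : ℝ) : ℂ))
      (∑ n ∈ A, ∑ m ∈ A, (r n * conj (r m)) * if Real.log n - Real.log m = 0 then 1 else 0) := by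
    simp_rw [sq_Rs]
    exact Mean.sum _ fun n _ => Mean.sum _ fun m _ => (Mean.ee _).const_mul _
  have h2 : (∑ n ∈ A, ∑ m ∈ A, (r n * conj (r m)) *
      if Real.log n - Real.log m = 0 then (1 : ℂ) else 0) = ((∑ n ∈ A, ‖r n‖ ^ 2 : ℝ) : ℂ) := by
    rw [Complex.ofReal_sum]
    refine Finset.sum_congr rfl fun n hn => ?_
    rw [Finset.sum_eq_single n]
    · rw [sub_self, if_pos rfl, mul_one, Complex.mul_conj, Complex.normSq_eq_norm_sq]
    · intro m hm hmn
      rw [if_neg, mul_zero]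
      intro h
      have hn0 : (0 : ℝ) < n := by exact_mod_cast Nat.pos_of_ne_zero (hA n hn)
      have hm0 : (0 : ℝ) < m := by exact_mod_cast Nat.pos_of_ne_zero (hA m hm)
      have h3 := Real.log_injOn_pos (Set.mem_Ioi.2 hn0) (Set.mem_Ioi.2 hm0) (sub_eq_zero.1 h)
      exact hmn (by exact_mod_cast h3.symm)
    · intro h
      exact absurd hn h
  rwa [h2] at h1

/-- the quadratic form of the resonator -/
noncomputable def QF (b : PP → ℂ) (A : Finset ℕ) (r : ℕ → ℂ) : ℂ :=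
  ∑ n ∈ A, ∑ m ∈ A, (r n * conj (r m)) * Ac b (Real.log n - Real.log m)

lemma mean_QF (hb : ∀ x, ‖b x‖ ≤ M / (x.2 + 1 : ℕ)) (A : Finset ℕ) (r : ℕ → ℂ) :
    Mean (fun u => bl b u * ((‖Rs A r u‖ ^ 2 : ℝ) : ℂ)) (QF b A r) := by
  have h1 : (fun u => bl b u * ((‖Rs A r u‖ ^ 2 : ℝ) : ℂ)) = fun u =>
      ∑ n ∈ A, ∑ m ∈ A, (r n * conj (r m)) * (bl b u * ee (Real.log n - Real.log m) u) := by
    funext u
    rw [sq_Rs, Finset.mul_sum]
    refine Finset.sum_congr rfl fun n _ => ?_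
    rw [Finset.mul_sum]
    refine Finset.sum_congr rfl fun m _ => ?_
    ring
  rw [h1]
  exact Mean.sum _ fun n _ => Mean.sum _ fun m _ => (mean_bl hb _).const_mul _

lemma norm_Rs_le (A : Finset ℕ) (r : ℕ → ℂ) (u : ℝ) : ‖Rs A r u‖ ≤ ∑ n ∈ A, ‖r n‖ := by
  unfold Rs
  refine norm_sum_le_of_le _ fun x _ => ?_
  rw [norm_mul, norm_ee, mul_one]

/-- **The resonance method on the edge.** -/
theorem peak (hb : ∀ x, ‖b x‖ ≤ M / (x.2 + 1 : ℕ)) (A : Finset ℕ) (hA : ∀ n ∈ A, n ≠ 0)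
    (r : ℕ → ℂ) {c : ℝ} (hc : c * ∑ n ∈ A, ‖r n‖ ^ 2 < (QF b A r).re) :
    Often {u | c < (bl b u).re} := by
  obtain ⟨C, hC⟩ := sqB_re hb
  set Q : ℝ := ∑ n ∈ A, ‖r n‖ ^ 2 with hQ
  set V : ℝ := (QF b A r).re with hV
  set g : ℝ := V - c * Q with hg
  have hg0 : 0 < g := by rw [hg]; linarith
  set η : ℝ := g / (2 * (1 + |c|)) with hη
  have hη0 : 0 < η := by positivity
  obtain ⟨H1, h1, h1'⟩ := (mean_QF hb A r).2 η hη0
  obtain ⟨H2, h2, h2'⟩ := (mean_sq A hA r).2 η hη0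
  set H : ℝ := max H1 H2 with hH
  have hH0 : 0 < H := lt_max_of_lt_left h1
  have hwc : Continuous fun u => ‖Rs A r u‖ ^ 2 := (continuous_Rs A r).norm.pow 2
  refine mass (W := (∑ n ∈ A, ‖r n‖) ^ 2) (κ := g / 2 * H) (H := H) hC hwc
    (fun u => by positivity) (fun u => pow_le_pow_left₀ (norm_nonneg _) (norm_Rs_le A r u) 2)
    hH0 (by positivity) fun T => ?_
  have e1 := h1' H (le_max_left _ _) T
  have e2 := h2' H (le_max_right _ _) T
  have i1 := (mean_QF hb A r).1 T (T + H)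
  have i2 := (mean_sq A hA r).1 T (T + H)
  have e3 : ∫ u in T..(T + H), ‖Rs A r u‖ ^ 2 * ((bl b u).re - c) =
      (∫ u in T..(T + H), bl b u * ((‖Rs A r u‖ ^ 2 : ℝ) : ℂ)).re -
        c * (∫ u in T..(T + H), ((‖Rs A r u‖ ^ 2 : ℝ) : ℂ)).re := by
    have h3 : ∫ u in T..(T + H), (bl b u * ((‖Rs A r u‖ ^ 2 : ℝ) : ℂ)).re =
        (∫ u in T..(T + H), bl b u * ((‖Rs A r u‖ ^ 2 : ℝ) : ℂ)).re :=
      Complex.reCLM.intervalIntegral_comp_comm i1
    have h4 : ∫ u in T..(T + H), (((‖Rs A r u‖ ^ 2 : ℝ) : ℂ)).re =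
        (∫ u in T..(T + H), ((‖Rs A r u‖ ^ 2 : ℝ) : ℂ)).re :=
      Complex.reCLM.intervalIntegral_comp_comm i2
    have i3 : IntervalIntegrable (fun u => (bl b u * ((‖Rs A r u‖ ^ 2 : ℝ) : ℂ)).re) volume T
        (T + H) := ⟨i1.1.re, i1.2.re⟩
    have i4 : IntervalIntegrable (fun u => (((‖Rs A r u‖ ^ 2 : ℝ) : ℂ)).re) volume T
        (T + H) := ⟨i2.1.re, i2.2.re⟩
    rw [← h3, ← h4, ← intervalIntegral.integral_const_mul,
      ← intervalIntegral.integral_sub i3 (i4.const_mul c)]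
    refine intervalIntegral.integral_congr fun u _ => ?_
    simp only [Complex.ofReal_re, Complex.re_mul_ofReal]
    ring
  rw [e3]
  set z1 : ℂ := ∫ u in T..(T + H), bl b u * ((‖Rs A r u‖ ^ 2 : ℝ) : ℂ) with hz1
  set z2 : ℂ := ∫ u in T..(T + H), ((‖Rs A r u‖ ^ 2 : ℝ) : ℂ) with hz2
  have e4 : H * V - η * H ≤ z1.re := by
    have h5 := (Complex.abs_re_le_norm (z1 - H * QF b A r)).trans e1
    rw [Complex.sub_re, Complex.re_ofReal_mul, abs_le] at h5
    linarith [h5.1]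
  have e5 : |z2.re - H * Q| ≤ η * H := by
    have h5 := (Complex.abs_re_le_norm (z2 - H * ((Q : ℝ) : ℂ))).trans e2
    rw [Complex.sub_re, Complex.re_ofReal_mul, Complex.ofReal_re] at h5
    exact h5
  have e6 : c * z2.re ≤ c * (H * Q) + |c| * (η * H) := by
    have h6 : c * (z2.re - H * Q) ≤ |c| * (η * H) := by
      refine (le_abs_self _).trans ?_
      rw [abs_mul]
      exact mul_le_mul_of_nonneg_left e5 (abs_nonneg _)
    linarith
  have e7 : η * H + |c| * (η * H) = g / 2 * H := by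
    rw [hη]
    field_simp
  nlinarith

end

end Pool.Agent.E8helper69.AP
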