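import Pool.Agent.E8helper69.AP.B

/-!
# Almost periods and averages over arithmetic progressions
-/

set_option autoImplicit false

namespace Pool.Agent.E8helper69.AP

open Complex MeasureTheory Finset Filter Topology Set
open scoped ComplexConjugate ENNReal
open Pool.Agent.TH339.MP
open Pool.Agent.E8helper17.MC (integral_norm_diff integral_sq integrableOn_sq integrableOn_diff
  integrableOn_bl log_qq_pos pb norm_pb integral_PS sum_ce_log)

/-- simultaneous almost periods -/
lemma periods {ι : Type*} [Fintype ι] (l : ι → ℝ) {ε : ℝ} (hε : 0 < ε) :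
    ∃ L : ℝ, ∀ T : ℝ, ∃ θ : ℝ, T ≤ θ ∧ θ ≤ T + L ∧ ∀ i, ‖ee (l i) θ - 1‖ ≤ ε := by
  set φ : ℝ → (ι → ℂ) := fun u i => ee (l i) u with hφ
  have hb : TotallyBounded (Set.range φ) := by
    refine (isCompact_univ_pi (s := fun _ : ι => Metric.closedBall (0 : ℂ) 1)
      (fun _ => isCompact_closedBall _ _)).totallyBounded.subset ?_
    rintro _ ⟨u, rfl⟩ i _
    rw [mem_closedBall_zero_iff]
    exact (norm_ee _ _).le
  obtain ⟨t, ht, htf, hcov⟩ := totallyBounded_iff_subset.1 hb
    {p : (ι → ℂ) × (ι → ℂ) | dist p.1 p.2 < ε} (Metric.dist_mem_uniformity hε)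
  choose! f hf using fun y (hy : y ∈ t) => ht hy
  obtain ⟨B, hB⟩ : ∃ B : ℝ, ∀ y ∈ t, |f y| ≤ B := by
    obtain ⟨B, hB⟩ := (htf.image fun y => |f y|).bddAbove
    exact ⟨B, fun y hy => hB (Set.mem_image_of_mem _ hy)⟩
  refine ⟨2 * B, fun T => ?_⟩
  have h1 := hcov (Set.mem_range_self (T + B))
  simp only [Set.mem_iUnion] at h1
  obtain ⟨y, hy, h2⟩ := h1
  have h2' : dist (φ (T + B)) y < ε := h2
  have h3 := abs_le.1 (hB y hy)
  refine ⟨T + B - f y, by linarith [h3.2], by linarith [h3.1], fun i => ?_⟩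
  rw [← hf y hy] at h2'
  have h4 : dist (ee (l i) (T + B)) (ee (l i) (f y)) < ε :=
    lt_of_le_of_lt (dist_le_pi_dist (φ (T + B)) (φ (f y)) i) h2'
  rw [dist_eq_norm] at h4
  have h5 : ee (l i) (T + B - f y) - 1 =
      ee (l i) (-f y) * (ee (l i) (T + B) - ee (l i) (f y)) := by
    rw [mul_sub, ← ee_add, ← ee_add, neg_add_cancel, ee_zero]
    congr 2
    ring
  rw [h5, norm_mul, norm_ee, one_mul]
  exact h4.le

lemma norm_sq_add3 (x y z : ℂ) : ‖x + y - z‖ ^ 2 ≤ 3 * (‖x‖ ^ 2 + ‖y‖ ^ 2 + ‖z‖ ^ 2) := by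
  have h1 : ‖x + y - z‖ ≤ ‖x‖ + ‖y‖ + ‖z‖ :=
    (norm_sub_le _ _).trans (by linarith [norm_add_le x y])
  have h2 := pow_le_pow_left₀ (norm_nonneg _) h1 2
  nlinarith [sq_nonneg (‖x‖ - ‖y‖), sq_nonneg (‖x‖ - ‖z‖), sq_nonneg (‖y‖ - ‖z‖)]

section
variable {b : PP → ℂ} {M : ℝ}

lemma aesm_bl (hb : ∀ x, ‖b x‖ ≤ M / (x.2 + 1 : ℕ)) : AEStronglyMeasurable (bl b) volume :=
  (boundary hb).1.aestronglyMeasurable

lemma aesm_shift (hb : ∀ x, ‖b x‖ ≤ M / (x.2 + 1 : ℕ)) (θ : ℝ) :
    AEStronglyMeasurable (fun u => bl b (u + θ)) volume :=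
  (aesm_bl hb).comp_quasiMeasurePreserving
    (measurePreserving_add_right volume θ).quasiMeasurePreserving

/-- `∫⁻` over a unit interval -/
lemma lint_of_le {g : ℝ → ℝ} {h : ℝ → ℝ} {C : ℝ} (hgh : ∀ u, g u ≤ h u)
    (h0 : ∀ u, 0 ≤ h u) (hi : ∀ a c : ℝ, IntervalIntegrable h volume a c) (t : ℝ)
    (hC : ∫ u in t..(t + 1), h u ≤ C) :
    ∫⁻ u in Icc t (t + 1), ENNReal.ofReal (g u) ≤ ENNReal.ofReal C := by
  refine (lintegral_mono fun u => ENNReal.ofReal_le_ofReal (hgh u)).trans ?_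
  have h1 := hi t (t + 1)
  rw [intervalIntegrable_iff_integrableOn_Icc_of_le (by linarith)] at h1
  rw [← ofReal_integral_eq_lintegral_ofReal h1 (Eventually.of_forall h0)]
  refine ENNReal.ofReal_le_ofReal ?_
  rw [intervalIntegral.integral_of_le (by linarith), ← integral_Icc_eq_integral_Ioc] at hC
  exact hC

lemma shift_integrable {h : ℝ → ℝ} (hi : ∀ a c : ℝ, IntervalIntegrable h volume a c) (θ a c : ℝ) :
    IntervalIntegrable (fun u => h (u + θ)) volume a c := by
  have h1 := (hi (a + θ) (c + θ)).comp_add_right (c := θ)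
  simpa using h1

lemma shift_bound {h : ℝ → ℝ} {C : ℝ} (hC : ∀ t : ℝ, ∫ u in t..(t + 1), h u ≤ C) (θ t : ℝ) :
    ∫ u in t..(t + 1), h (u + θ) ≤ C := by
  rw [intervalIntegral.integral_comp_add_right (fun u => h u) θ]
  have := hC (t + θ)
  have e : t + 1 + θ = t + θ + 1 := by ring
  rw [e]
  exact this

/-- **Almost periods common to all Euler products.** -/
theorem almost_periods (A : ℝ) {η : ℝ} (hη : 0 < η) : ∃ (Θ : Set ℝ) (L : ℝ),
    (∀ T : ℝ, ∃ θ ∈ Θ, T ≤ θ ∧ θ ≤ T + L) ∧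
    ∀ (b : PP → ℂ) (M : ℝ), (∀ x, ‖b x‖ ≤ M / (x.2 + 1 : ℕ)) → M ≤ A → ∀ θ ∈ Θ, ∀ t : ℝ,
      ∫⁻ u in Icc t (t + 1), ENNReal.ofReal (‖bl b (u + θ) - bl b u‖ ^ 2) ≤ ENNReal.ofReal η := by
  classical
  -- the cut-off
  have h1 : Tendsto (fun X : ℕ => 64800 * A ^ 2 / Real.log X) atTop (𝓝 0) :=
    Tendsto.div_atTop tendsto_const_nhds
      (Real.tendsto_log_atTop.comp tendsto_natCast_atTop_atTop)
  obtain ⟨X, hX1, hX2⟩ := ((h1.eventually (gt_mem_nhds (show 0 < η / 12 by positivity))).and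
    (eventually_ge_atTop 2)).exists
  set S : ℝ := ∑ x ∈ TX X, ce x with hS
  have hS0 : 0 ≤ S := Finset.sum_nonneg fun x _ => ce_nonneg x
  obtain ⟨ε, hε0, hε⟩ : ∃ ε : ℝ, 0 < ε ∧ 3 * (|A| * S * ε) ^ 2 ≤ η / 2 := by
    refine ⟨min 1 (η / (6 * (|A| * S + 1) ^ 2)), by positivity, ?_⟩
    set ε : ℝ := min 1 (η / (6 * (|A| * S + 1) ^ 2)) with he
    have e0 : 0 < ε := by positivity
    have e1 : ε ≤ 1 := min_le_left _ _
    have e2 : ε ≤ η / (6 * (|A| * S + 1) ^ 2) := min_le_right _ _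
    have e3 : ε ^ 2 ≤ ε := by nlinarith
    have e4 : (|A| * S) ^ 2 ≤ (|A| * S + 1) ^ 2 :=
      pow_le_pow_left₀ (by positivity) (by linarith) 2
    have e5 : (|A| * S + 1) ^ 2 * ε ≤ η / 6 := by
      rw [le_div_iff₀ (by positivity)] at e2
      linarith
    calc 3 * (|A| * S * ε) ^ 2 = 3 * ((|A| * S) ^ 2 * ε ^ 2) := by ring
      _ ≤ 3 * ((|A| * S + 1) ^ 2 * ε) := by gcongr
      _ ≤ 3 * (η / 6) := by linarith
      _ = η / 2 := by ring
  obtain ⟨L, hL⟩ := periods (fun x : TX X => fr x) hε0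
  refine ⟨{θ | ∀ x : TX X, ‖ee (fr x) θ - 1‖ ≤ ε}, L, fun T => ?_, ?_⟩
  · obtain ⟨θ, e1, e2, e3⟩ := hL T
    exact ⟨θ, e3, e1, e2⟩
  · intro b M hb hMA θ hθ t
    have hM0 : 0 ≤ M := M_nonneg hb
    have hMA2 : M ≤ |A| := hMA.trans (le_abs_self _)
    have hPS : ∀ u, ‖PS b X (u + θ) - PS b X u‖ ≤ |A| * S * ε := by
      intro u
      have e1 : PS b X (u + θ) - PS b X u =
          ∑ x ∈ TX X, (b x * (wt 1 x : ℂ)) * (ee (fr x) u * (ee (fr x) θ - 1)) := by
        unfold PS
        rw [← Finset.sum_sub_distrib]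
        refine Finset.sum_congr rfl fun x _ => ?_
        rw [ee_add]
        ring
      rw [e1, hS, Finset.mul_sum, Finset.sum_mul]
      refine norm_sum_le_of_le _ fun x hx => ?_
      rw [norm_mul, norm_mul (ee (fr x) u), norm_ee, one_mul]
      refine mul_le_mul ((norm_coef hb x).trans ?_) (hθ ⟨x, hx⟩) (norm_nonneg _) ?_
      · exact mul_le_mul_of_nonneg_right hMA2 (ce_nonneg x)
      · exact mul_nonneg (abs_nonneg _) (ce_nonneg x)
    have hi := sq_integrable hb X hX2
    have hbd : ∀ t : ℝ, ∫ u in t..(t + 1), ‖bl b u - PS b X u‖ ^ 2 ≤ η / 12 := by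
      intro t
      refine (sq_bound hb hX2 t).trans ?_
      refine le_trans ?_ hX1.le
      have hl : 0 < Real.log X := Real.log_pos (by exact_mod_cast (by omega : 1 < X))
      refine div_le_div_of_nonneg_right ?_ hl.le
      have : M ^ 2 ≤ A ^ 2 := by
        rw [← sq_abs A]
        exact pow_le_pow_left₀ hM0 hMA2 2
      linarith
    refine lint_of_le (h := fun u => 3 * (‖bl b (u + θ) - PS b X (u + θ)‖ ^ 2 +
      (|A| * S * ε) ^ 2 + ‖bl b u - PS b X u‖ ^ 2)) (fun u => ?_) (fun u => by positivity)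
      (fun a c => ?_) t ?_
    · have e1 : bl b (u + θ) - bl b u = (bl b (u + θ) - PS b X (u + θ)) +
          (PS b X (u + θ) - PS b X u) - (bl b u - PS b X u) := by ring
      rw [e1]
      refine (norm_sq_add3 _ _ _).trans ?_
      have := pow_le_pow_left₀ (norm_nonneg _) (hPS u) 2
      linarith
    · exact (((shift_integrable hi θ a c).add intervalIntegrable_const).add (hi a c)).const_mul 3
    · rw [intervalIntegral.integral_const_mul,
        intervalIntegral.integral_add ((shift_integrable hi θ _ _).add intervalIntegrable_const)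
          (hi _ _), intervalIntegral.integral_add (shift_integrable hi θ _ _)
          intervalIntegrable_const, intervalIntegral.integral_const]
      have e1 := shift_bound hbd θ t
      have e2 := hbd t
      rw [smul_eq_mul]
      linarith

/-- **The primitive is bounded.** -/
theorem primitive_bound (hb : ∀ x, ‖b x‖ ≤ M / (x.2 + 1 : ℕ)) (a c : ℝ) :
    ‖∫ u in a..c, bl b u‖ ≤ 62 * M := by
  have key : ∀ a c : ℝ, a ≤ c → ‖∫ u in a..c, bl b u‖ ≤ 62 * M := by
    intro a c hac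
    refine le_of_forall_pos_le_add fun η hη => ?_
    obtain ⟨X, hX⟩ := (approx1 hb (show 0 < η / (c - a + 1) by
      have : 0 < c - a + 1 := by linarith
      positivity)).exists
    have hc1 : 0 < c - a + 1 := by linarith
    have e1 : ‖∫ u in a..c, PS b X u‖ ≤ 62 * M := by
      have h1 : ‖∫ u in a..c, PS b X u‖ = ‖PS (pb b) X c - PS (pb b) X a‖ := by
        rw [← integral_PS, norm_mul, norm_I, one_mul]
      rw [h1]
      have h2 : ∀ τ : ℝ, ‖PS (pb b) X τ‖ ≤ 31 * M := by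
        intro τ
        have h3 : ‖PS (pb b) X τ‖ ≤ ∑ x ∈ TX X, M * (ce x / Real.log (qq x)) := by
          unfold PS
          refine norm_sum_le_of_le _ fun x _ => ?_
          rw [norm_mul, norm_ee, mul_one, norm_mul, norm_pb, Complex.norm_real,
            Real.norm_of_nonneg (wt_nonneg _ x)]
          have h4 := norm_coef hb x
          rw [norm_mul, Complex.norm_real, Real.norm_of_nonneg (wt_nonneg _ x)] at h4
          have h5 := log_qq_pos x
          calc ‖b x‖ / Real.log (qq x) * wt 1 x = (‖b x‖ * wt 1 x) / Real.log (qq x) := by ring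
            _ ≤ (M * ce x) / Real.log (qq x) := div_le_div_of_nonneg_right h4 h5.le
            _ = _ := by ring
        refine h3.trans ?_
        rw [← Finset.mul_sum]
        have := mul_le_mul_of_nonneg_left (sum_ce_log (TX X)) (M_nonneg hb)
        linarith
      refine (norm_sub_le _ _).trans ?_
      linarith [h2 c, h2 a]
    have e2 : ‖∫ u in a..c, (bl b u - PS b X u)‖ ≤ η := by
      refine (intervalIntegral.norm_integral_le_integral_norm hac).trans ?_
      have h1 := window (h := fun u => ‖bl b u - PS b X u‖)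
        (fun a c => ((intervalIntegrable_bl hb a c).sub
          ((continuous_PS b X).intervalIntegrable _ _)).norm) (fun u => norm_nonneg _) hX
        (H := c - a) (by linarith) a
      rw [add_sub_cancel, div_mul_cancel₀ _ hc1.ne'] at h1
      exact h1
    have e3 : ∫ u in a..c, bl b u = (∫ u in a..c, PS b X u) +
        ∫ u in a..c, (bl b u - PS b X u) := by
      rw [intervalIntegral.integral_sub (intervalIntegrable_bl hb a c)
        ((continuous_PS b X).intervalIntegrable _ _)]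
      ring
    rw [e3]
    exact (norm_add_le _ _).trans (add_le_add e1 e2)
  rcases le_total a c with h | h
  · exact key a c h
  · rw [intervalIntegral.integral_symm, norm_neg]
    exact key c a h

end

end Pool.Agent.E8helper69.AP
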