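import Pool.Agent.E8helper69.AP.C

/-!
# Averages over arithmetic progressions of difference `2π / log p`
-/

set_option autoImplicit false

namespace Pool.Agent.E8helper69.AP

open Complex MeasureTheory Finset Filter Topology Set
open scoped ComplexConjugate ENNReal
open Pool.Agent.TH339.MP
open Pool.Agent.E8helper17.MC (log_qq_pos PS_eq_tm)

section
variable {b : PP → ℂ} {M : ℝ}

/-- the logarithm of the local factor at `p` on the edge -/
noncomputable def lp (b : PP → ℂ) (p : Nat.Primes) (τ : ℝ) : ℂ := ∑' k : ℕ, tm b (1 + τ * I) (p, k)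

lemma norm_tm_edge (hb : ∀ x, ‖b x‖ ≤ M / (x.2 + 1 : ℕ)) (x : PP) (τ : ℝ) :
    ‖tm b (1 + τ * I) x‖ ≤ M * ce x := by
  rw [norm_tm]
  have h : ((1 : ℂ) + τ * I).re = 1 := by simp
  rw [h]
  have := norm_coef hb x
  rwa [norm_mul, Complex.norm_real, Real.norm_of_nonneg (wt_nonneg _ x)] at this

lemma ce_le (p : Nat.Primes) (k : ℕ) : ce (p, k) ≤ (1 / 2) ^ (k + 1) := by
  unfold ce qq
  simp only
  have h2 : (2 : ℝ) ≤ ((p : ℕ) : ℝ) := two_le_prime p
  have h3 : (2 : ℝ) ^ (k + 1) ≤ ((p : ℕ) : ℝ) ^ (k + 1) := pow_le_pow_left₀ (by norm_num) h2 _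
  rw [one_div_pow]
  refine one_div_le_one_div_of_le (by positivity) ?_
  push_cast
  have h4 : (1 : ℝ) ≤ (k : ℝ) + 1 := by
    have : (0 : ℝ) ≤ k := Nat.cast_nonneg k
    linarith
  nlinarith [pow_pos (show (0 : ℝ) < 2 by norm_num) (k + 1)]

lemma summable_ce_p (p : Nat.Primes) : Summable fun k : ℕ => ce (p, k) := by
  refine Summable.of_nonneg_of_le (fun k => ce_nonneg _) (fun k => ce_le p k) ?_
  exact (summable_nat_add_iff 1).2 (summable_geometric_of_lt_one (by norm_num) (by norm_num))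

lemma summable_lp (hb : ∀ x, ‖b x‖ ≤ M / (x.2 + 1 : ℕ)) (p : Nat.Primes) (τ : ℝ) :
    Summable fun k : ℕ => tm b (1 + τ * I) (p, k) :=
  Summable.of_norm_bounded ((summable_ce_p p).mul_left M) fun k => norm_tm_edge hb (p, k) τ

lemma continuous_lp (hb : ∀ x, ‖b x‖ ≤ M / (x.2 + 1 : ℕ)) (p : Nat.Primes) :
    Continuous (lp b p) := by
  unfold lp
  refine continuous_tsum (fun k => ?_) ((summable_ce_p p).mul_left M) fun k τ =>
    norm_tm_edge hb (p, k) τ
  exact (continuous_tm b (p, k)).comp (by fun_prop)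

lemma tm_edge (b : PP → ℂ) (x : PP) (τ : ℝ) :
    tm b (1 + τ * I) x = (b x * (wt 1 x : ℂ)) * ee (fr x) τ := by
  have := tm_eq b 1 τ x
  rwa [Complex.ofReal_one] at this

/-- the part of the partial sum that belongs to `p` -/
lemma lp_approx (hb : ∀ x, ‖b x‖ ≤ M / (x.2 + 1 : ℕ)) (p : Nat.Primes) {η : ℝ} (hη : 0 < η) :
    ∀ᶠ X : ℕ in atTop, ∀ τ : ℝ,
      ‖(∑ x ∈ (TX X).filter (fun x => x.1 = p), tm b (1 + τ * I) x) - lp b p τ‖ ≤ η := by
  classical
  -- the indices
  set KX : ℕ → Finset ℕ := fun X => (Finset.range X).filter fun k => qq (p, k) ≤ X with hKX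
  have hk : ∀ k, k < qq (p, k) := by
    intro k
    unfold qq
    simp only
    exact (Nat.lt_succ_self k).trans ((Nat.lt_two_pow_self).trans_le
      (Nat.pow_le_pow_left p.2.two_le _))
  have hmem : ∀ X k, k ∈ KX X ↔ qq (p, k) ≤ X := by
    intro X k
    rw [hKX]
    simp only [Finset.mem_filter, Finset.mem_range]
    constructor
    · exact fun h => h.2
    · exact fun h => ⟨(hk k).trans_le h, h⟩
  have hsum : ∀ X τ, ∑ x ∈ (TX X).filter (fun x => x.1 = p), tm b (1 + τ * I) x =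
      ∑ k ∈ KX X, tm b (1 + τ * I) (p, k) := by
    intro X τ
    refine Finset.sum_bij' (fun x _ => x.2) (fun k _ => (p, k)) ?_ ?_ ?_ ?_ ?_
    · intro x hx
      rw [Finset.mem_filter, mem_TX] at hx
      rw [hmem]
      have : x = (p, x.2) := Prod.ext hx.2 rfl
      rw [← this]
      exact hx.1
    · intro k hk
      rw [hmem] at hk
      rw [Finset.mem_filter, mem_TX]
      exact ⟨hk, rfl⟩
    · intro x hx
      rw [Finset.mem_filter] at hx
      exact Prod.ext hx.2.symm rfl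
    · intro k _
      rfl
    · intro x hx
      rw [Finset.mem_filter] at hx
      have : x = (p, x.2) := Prod.ext hx.2 rfl
      rw [← this]
  have hs : Summable fun k : ℕ => M * ce (p, k) := (summable_ce_p p).mul_left M
  have hKtend : Tendsto KX atTop atTop := by
    refine tendsto_atTop_finset_of_monotone ?_ ?_
    · intro X Y hXY k hk
      rw [hmem] at hk ⊢
      exact hk.trans hXY
    · intro k
      exact ⟨qq (p, k), (hmem _ _).2 le_rfl⟩
  have hlim : Tendsto (fun X => ∑ k ∈ KX X, M * ce (p, k)) atTop (𝓝 (∑' k, M * ce (p, k))) :=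
    hs.hasSum.comp hKtend
  have hev : ∀ᶠ X in atTop, (∑' k, M * ce (p, k)) - η < ∑ k ∈ KX X, M * ce (p, k) :=
    hlim.eventually (lt_mem_nhds (by linarith))
  filter_upwards [hev] with X hX τ
  rw [hsum, ← norm_neg, neg_sub]
  unfold lp
  have hsl := summable_lp hb p τ
  have h1 : (∑' k, tm b (1 + τ * I) (p, k)) - ∑ k ∈ KX X, tm b (1 + τ * I) (p, k) =
      ∑' k : {k // k ∉ KX X}, tm b (1 + τ * I) (p, k) := by
    rw [← hsl.sum_add_tsum_compl (s := KX X)]
    simp only [add_sub_cancel_left]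
    rfl
  rw [h1]
  have h2 : (∑' k, M * ce (p, k)) - ∑ k ∈ KX X, M * ce (p, k) =
      ∑' k : {k // k ∉ KX X}, M * ce (p, k) := by
    rw [← hs.sum_add_tsum_compl (s := KX X)]
    simp only [add_sub_cancel_left]
    rfl
  refine (tsum_of_norm_bounded (hs.comp_injective (Subtype.val_injective (p := fun k =>
    k ∉ KX X))).hasSum fun k => norm_tm_edge hb (p, k) τ).trans ?_
  have h3 : ∑' k : {k // k ∉ KX X}, M * ce (p, (k : ℕ)) ≤ η := by
    rw [← h2]
    linarith
  exact h3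

/-- the step of the progression -/
noncomputable def stp (p : Nat.Primes) : ℝ := 2 * Real.pi / Real.log (p : ℕ)

lemma log_prime_pos (p : Nat.Primes) : 0 < Real.log ((p : ℕ) : ℝ) :=
  Real.log_pos (by exact_mod_cast p.2.one_lt)

lemma ee_stp_same (p : Nat.Primes) (k : ℕ) : ee (fr (p, k)) (stp p) = 1 := by
  unfold ee
  rw [Complex.exp_eq_one_iff]
  refine ⟨-((k + 1 : ℕ) : ℤ), ?_⟩
  unfold fr stp
  have := (log_prime_pos p).ne'
  simp only
  have h1 : -(((k + 1 : ℕ) : ℝ) * Real.log ((p : ℕ) : ℝ)) * (2 * Real.pi /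
      Real.log ((p : ℕ) : ℝ)) = -((k + 1 : ℕ) : ℝ) * (2 * Real.pi) := by
    field_simp
  rw [h1]
  push_cast
  ring

lemma ee_stp_ne {p : Nat.Primes} {x : PP} (hx : x.1 ≠ p) : ee (fr x) (stp p) ≠ 1 := by
  intro h
  unfold ee at h
  rw [Complex.exp_eq_one_iff] at h
  obtain ⟨n, hn⟩ := h
  have hI := mul_right_cancel₀ Complex.I_ne_zero (show (((fr x * stp p : ℝ) : ℂ)) * I =
    ((n : ℂ) * (2 * Real.pi)) * I by rw [hn]; ring)
  have h1 : fr x * stp p = n * (2 * Real.pi) := by exact_mod_cast hI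
  have hlp := log_prime_pos p
  have hpi := Real.pi_pos
  unfold stp at h1
  rw [fr_eq] at h1
  have h2 : Real.log (qq x) = -n * Real.log ((p : ℕ) : ℝ) := by
    have h3 : -Real.log (qq x) * (2 * Real.pi / Real.log ((p : ℕ) : ℝ)) *
        Real.log ((p : ℕ) : ℝ) = n * (2 * Real.pi) * Real.log ((p : ℕ) : ℝ) := by rw [h1]
    have h4 : -Real.log (qq x) * (2 * Real.pi / Real.log ((p : ℕ) : ℝ)) *
        Real.log ((p : ℕ) : ℝ) = -Real.log (qq x) * (2 * Real.pi) := by
      field_simp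
    rw [h4] at h3
    have h5 : (2 * Real.pi) * (-Real.log (qq x)) = (2 * Real.pi) * (n * Real.log ((p : ℕ) : ℝ)) := by
      linarith
    have h6 := mul_left_cancel₀ (by positivity) h5
    linarith
  have hq := log_qq_pos x
  have hn0 : 0 < -(n : ℝ) := by
    rw [h2] at hq
    exact pos_of_mul_pos_left hq hlp.le
  obtain ⟨m, hm⟩ : ∃ m : ℕ, (m : ℤ) = -n := by
    have : 0 < -n := by exact_mod_cast hn0
    exact ⟨(-n).toNat, Int.toNat_of_nonneg this.le⟩
  have hm' : (m : ℝ) = -(n : ℝ) := by exact_mod_cast hm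
  rw [← hm', ← Real.log_pow] at h2
  have hx0 : (0 : ℝ) < qq x := by exact_mod_cast (by have := two_le_qq x; omega : 0 < qq x)
  have hp0 : (0 : ℝ) < (((p : ℕ) : ℝ)) ^ m := pow_pos (prime_pos p) m
  have h3 := Real.log_injOn_pos (Set.mem_Ioi.2 hx0) (Set.mem_Ioi.2 hp0) h2
  have h4 : qq x = (p : ℕ) ^ m := by exact_mod_cast h3
  apply hx
  have h5 : (x.1 : ℕ) ∣ (p : ℕ) ^ m := by
    rw [← h4]
    unfold qq
    exact dvd_pow_self _ (by omega)
  exact Subtype.ext ((Nat.prime_dvd_prime_iff_eq x.1.2 p.2).1 (x.1.2.dvd_of_dvd_pow h5))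

/-- the average over the progression -/
noncomputable def avg (f : ℝ → ℂ) (d : ℝ) (K : ℕ) (τ : ℝ) : ℂ :=
  (∑ n ∈ Finset.range K, f (τ + n * d)) / K

lemma avg_add (f g : ℝ → ℂ) (d : ℝ) (K : ℕ) (τ : ℝ) :
    avg (fun u => f u + g u) d K τ = avg f d K τ + avg g d K τ := by
  unfold avg
  rw [Finset.sum_add_distrib, add_div]

lemma norm_avg_sq (f : ℝ → ℂ) (d : ℝ) {K : ℕ} (hK : 0 < K) (τ : ℝ) :
    ‖avg f d K τ‖ ^ 2 ≤ (∑ n ∈ Finset.range K, ‖f (τ + n * d)‖ ^ 2) / K := by
  have hK' : (0 : ℝ) < K := by exact_mod_cast hK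
  unfold avg
  rw [norm_div, Complex.norm_natCast, div_pow, div_le_div_iff₀ (by positivity) hK']
  have h1 : ‖∑ n ∈ Finset.range K, f (τ + n * d)‖ ^ 2 ≤
      (∑ n ∈ Finset.range K, ‖f (τ + n * d)‖) ^ 2 :=
    pow_le_pow_left₀ (norm_nonneg _) (norm_sum_le _ _) 2
  have h2 := sq_sum_le_card_mul_sum_sq (s := Finset.range K) (f := fun n => ‖f (τ + n * d)‖)
  rw [Finset.card_range] at h2
  calc _ ≤ (K * ∑ n ∈ Finset.range K, ‖f (τ + n * d)‖ ^ 2) * K :=
        mul_le_mul_of_nonneg_right (h1.trans h2) hK'.le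
    _ = _ := by ring

lemma norm_geom {z : ℂ} (hz : ‖z‖ = 1) (h1 : z ≠ 1) (K : ℕ) :
    ‖∑ n ∈ Finset.range K, z ^ n‖ ≤ 2 / ‖z - 1‖ := by
  rw [geom_sum_eq h1, norm_div]
  refine div_le_div_of_nonneg_right ?_ (norm_nonneg _)
  refine (norm_sub_le _ _).trans ?_
  rw [norm_pow, hz, one_pow, norm_one]
  norm_num

lemma ee_add_mul (l τ d : ℝ) (n : ℕ) : ee l (τ + n * d) = ee l τ * ee l d ^ n := by
  rw [ee_add, ee_pow]
  congr 1
  unfold ee
  congr 2
  push_cast
  ring

lemma avg_PS (hb : ∀ x, ‖b x‖ ≤ M / (x.2 + 1 : ℕ)) (p : Nat.Primes) (X : ℕ) {η : ℝ} (hη : 0 < η) :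
    ∀ᶠ K : ℕ in atTop, ∀ τ : ℝ,
      ‖avg (PS b X) (stp p) K τ -
        ∑ x ∈ (TX X).filter (fun x => x.1 = p), tm b (1 + τ * I) x‖ ≤ η := by
  classical
  set G : ℝ := ∑ x ∈ (TX X).filter (fun x => ¬ x.1 = p), M * ce x * (2 / ‖ee (fr x) (stp p) - 1‖)
    with hG
  have hM := M_nonneg hb
  have hG0 : 0 ≤ G := Finset.sum_nonneg fun x _ => by
    have := ce_nonneg x
    positivity
  obtain ⟨K0, hK0⟩ := exists_nat_gt (G / η)
  filter_upwards [eventually_ge_atTop (K0 + 1)] with K hK τ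
  have hKpos : 0 < K := by omega
  have hK' : (0 : ℝ) < K := by exact_mod_cast hKpos
  have hKne : (K : ℂ) ≠ 0 := by exact_mod_cast hKpos.ne'
  have h1 : avg (PS b X) (stp p) K τ = ∑ x ∈ TX X, ((b x * (wt 1 x : ℂ)) * ee (fr x) τ) *
      ((∑ n ∈ Finset.range K, ee (fr x) (stp p) ^ n) / K) := by
    unfold avg PS
    rw [Finset.sum_comm, Finset.sum_div]
    refine Finset.sum_congr rfl fun x _ => ?_
    rw [mul_div_assoc', Finset.mul_sum]
    congr 1
    refine Finset.sum_congr rfl fun n _ => ?_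
    rw [ee_add_mul]
    ring
  rw [h1, ← Finset.sum_filter_add_sum_filter_not (TX X) (fun x => x.1 = p)]
  have h2 : ∑ x ∈ (TX X).filter (fun x => x.1 = p), ((b x * (wt 1 x : ℂ)) * ee (fr x) τ) *
      ((∑ n ∈ Finset.range K, ee (fr x) (stp p) ^ n) / K) =
      ∑ x ∈ (TX X).filter (fun x => x.1 = p), tm b (1 + τ * I) x := by
    refine Finset.sum_congr rfl fun x hx => ?_
    rw [Finset.mem_filter] at hx
    have hx' : x = (p, x.2) := Prod.ext hx.2 rfl
    have h3 : ee (fr x) (stp p) = 1 := by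
      rw [hx']
      exact ee_stp_same p _
    rw [h3]
    simp only [one_pow, Finset.sum_const, Finset.card_range, nsmul_eq_mul, mul_one]
    rw [div_self hKne, mul_one, tm_edge]
  rw [h2, add_sub_cancel_left]
  have h4 : ‖∑ x ∈ (TX X).filter (fun x => ¬ x.1 = p), ((b x * (wt 1 x : ℂ)) * ee (fr x) τ) *
      ((∑ n ∈ Finset.range K, ee (fr x) (stp p) ^ n) / K)‖ ≤ G / K := by
    rw [hG, Finset.sum_div]
    refine norm_sum_le_of_le _ fun x hx => ?_
    rw [Finset.mem_filter] at hx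
    rw [norm_mul, norm_mul, norm_ee, mul_one, norm_div, Complex.norm_natCast, mul_div_assoc]
    refine mul_le_mul (norm_coef hb x) ?_ (by positivity) (mul_nonneg hM (ce_nonneg x))
    refine div_le_div_of_nonneg_right ?_ hK'.le
    exact norm_geom (norm_ee _ _) (ee_stp_ne hx.2) K
  refine h4.trans ?_
  rw [div_le_iff₀ hK']
  rw [div_lt_iff₀ hη] at hK0
  have h5 : (K0 : ℝ) ≤ K := by exact_mod_cast (by omega : K0 ≤ K)
  nlinarith

/-- **Averages over arithmetic progressions give the local factor.** -/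
theorem progression (hb : ∀ x, ‖b x‖ ≤ M / (x.2 + 1 : ℕ)) (p : Nat.Primes) {η : ℝ} (hη : 0 < η) :
    ∀ᶠ K : ℕ in atTop, ∀ t : ℝ,
      ∫⁻ τ in Icc t (t + 1), ENNReal.ofReal (‖avg (bl b) (stp p) K τ - lp b p τ‖ ^ 2) ≤
        ENNReal.ofReal η := by
  have hz : Tendsto (fun X : ℕ => 64800 * M ^ 2 / Real.log X) atTop (𝓝 0) :=
    Tendsto.div_atTop tendsto_const_nhds
      (Real.tendsto_log_atTop.comp tendsto_natCast_atTop_atTop)
  set ε : ℝ := min 1 (η / 12) with hε
  have hε0 : 0 < ε := by positivity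
  have hε1 : ε ^ 2 ≤ η / 12 := by
    have h1 : ε ≤ 1 := min_le_left _ _
    have h2 : ε ≤ η / 12 := min_le_right _ _
    nlinarith
  obtain ⟨X, ⟨hX1, hX2⟩, hX3⟩ := (((hz.eventually (gt_mem_nhds (show 0 < η / 12 by positivity))).and
    (lp_approx hb p hε0)).and (eventually_ge_atTop 2)).exists
  filter_upwards [avg_PS hb p X hε0, eventually_ge_atTop 1] with K hK hK1 t
  have hKpos : 0 < K := by omega
  have hK' : (0 : ℝ) < K := by exact_mod_cast hKpos
  have hi := sq_integrable hb X hX3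
  have hbd : ∀ t : ℝ, ∫ u in t..(t + 1), ‖bl b u - PS b X u‖ ^ 2 ≤ η / 12 := fun t =>
    (sq_bound hb hX3 t).trans hX1.le
  have hint : ∀ a c : ℝ, IntervalIntegrable (fun τ => (∑ n ∈ Finset.range K,
      ‖bl b (τ + n * stp p) - PS b X (τ + n * stp p)‖ ^ 2) / K) volume a c := by
    intro a c
    refine IntervalIntegrable.div_const ?_ _
    have : (fun τ => ∑ n ∈ Finset.range K,
        ‖bl b (τ + n * stp p) - PS b X (τ + n * stp p)‖ ^ 2) =
        ∑ n ∈ Finset.range K, fun τ => ‖bl b (τ + n * stp p) - PS b X (τ + n * stp p)‖ ^ 2 := by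
      funext τ
      rw [Finset.sum_apply]
    rw [this]
    exact IntervalIntegrable.sum _ fun n _ => shift_integrable hi _ a c
  refine lint_of_le (h := fun τ => 3 * ((∑ n ∈ Finset.range K,
      ‖bl b (τ + n * stp p) - PS b X (τ + n * stp p)‖ ^ 2) / K + ε ^ 2 + ε ^ 2))
      (fun τ => ?_) (fun τ => by positivity) (fun a c => ?_) t ?_
  · have e1 : avg (bl b) (stp p) K τ = avg (fun u => bl b u - PS b X u) (stp p) K τ +
        avg (PS b X) (stp p) K τ := by
      rw [← avg_add]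
      congr 1
      funext u
      ring
    have e2 : avg (bl b) (stp p) K τ - lp b p τ = avg (fun u => bl b u - PS b X u) (stp p) K τ +
        (avg (PS b X) (stp p) K τ -
          ∑ x ∈ (TX X).filter (fun x => x.1 = p), tm b (1 + τ * I) x) -
        (lp b p τ - ∑ x ∈ (TX X).filter (fun x => x.1 = p), tm b (1 + τ * I) x) := by
      rw [e1]
      ring
    rw [e2]
    refine (norm_sq_add3 _ _ _).trans ?_
    have e3 := norm_avg_sq (fun u => bl b u - PS b X u) (stp p) hKpos τ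
    have e4 := pow_le_pow_left₀ (norm_nonneg _) (hK τ) 2
    have e5 := pow_le_pow_left₀ (norm_nonneg _) (hX2 τ) 2
    rw [← norm_neg, neg_sub] at e5
    linarith
  · exact (((hint a c).add intervalIntegrable_const).add intervalIntegrable_const).const_mul 3
  · rw [intervalIntegral.integral_const_mul,
      intervalIntegral.integral_add ((hint _ _).add intervalIntegrable_const)
        intervalIntegrable_const, intervalIntegral.integral_add (hint _ _)
        intervalIntegrable_const, intervalIntegral.integral_const, intervalIntegral.integral_div,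
      intervalIntegral.integral_finsetSum fun n _ => shift_integrable hi _ _ _]
    have e1 : (∑ n ∈ Finset.range K, ∫ τ in t..(t + 1),
        ‖bl b (τ + n * stp p) - PS b X (τ + n * stp p)‖ ^ 2) / K ≤ η / 12 := by
      rw [div_le_iff₀ hK']
      refine (Finset.sum_le_sum fun (n : ℕ) _ => shift_bound hbd ((n : ℝ) * stp p) t).trans ?_
      rw [Finset.sum_const, Finset.card_range, nsmul_eq_mul]
      linarith
    rw [smul_eq_mul]
    linarith

end

end Pool.Agent.E8helper69.AP
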