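import Pool.Agent.TH958.BV.Defs

/-!
# Euler products over number fields and their moduli on vertical lines
-/

set_option autoImplicit false

namespace Pool.Agent.E8helper69.AP

open NumberField IsDedekindDomain Filter Topology MeasureTheory

section
variable {K : Type} [Field K] [NumberField K] {N : ℕ}

open Classical in
/-- The Euler factor at `v` of the Euler product over the primes of `K` outside `S` with the local
roots `α v j`. -/
noncomputable def localFactor (S : Set (HeightOneSpectrum (𝓞 K)))
    (α : HeightOneSpectrum (𝓞 K) → Fin N → ℂ) (v : HeightOneSpectrum (𝓞 K)) (s : ℂ) : ℂ :=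
  if v ∈ S then 1 else ∏ j, (1 - α v j * (Ideal.absNorm v.asIdeal : ℂ) ^ (-s))⁻¹

/-- The Euler product. -/
noncomputable def LFun (S : Set (HeightOneSpectrum (𝓞 K)))
    (α : HeightOneSpectrum (𝓞 K) → Fin N → ℂ) (s : ℂ) : ℂ :=
  ∏' v : HeightOneSpectrum (𝓞 K), localFactor S α v s

/-- The product of the moduli of the Euler factors at the primes of norm less than `x`, at the point
`c + iτ`. -/
noncomputable def truncatedModulus (S : Set (HeightOneSpectrum (𝓞 K)))
    (α : HeightOneSpectrum (𝓞 K) → Fin N → ℂ) (c τ : ℝ) (x : ℕ) : ℝ :=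
  ∏ᶠ v ∈ {v : HeightOneSpectrum (𝓞 K) | Ideal.absNorm v.asIdeal < x},
    ‖localFactor S α v (c + τ * Complex.I)‖

/-- The modulus of the Euler product at the point `c + iτ`: the limit of the truncated moduli. -/
noncomputable def modulus (S : Set (HeightOneSpectrum (𝓞 K)))
    (α : HeightOneSpectrum (𝓞 K) → Fin N → ℂ) (c τ : ℝ) : ℝ :=
  limUnder atTop (truncatedModulus S α c τ)

end

/-- The measures of the intersections of `E` with the windows of a certain length are bounded below
by a positive number. -/
def Recurrent (E : Set ℝ) : Prop :=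
  ∃ H δ : ℝ, 0 < H ∧ 0 < δ ∧ ∀ T : ℝ, ENNReal.ofReal δ ≤ volume (E ∩ Set.Icc T (T + H))

end Pool.Agent.E8helper69.AP
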