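import Pool.Agent.E8helper69.AP.D

/-!
# Rigidity, and the supremum over the windows
-/

set_option autoImplicit false

namespace Pool.Agent.E8helper69.AP

open Complex MeasureTheory Finset Filter Topology Set
open scoped ComplexConjugate ENNReal
open Pool.Agent.TH339.MP
open Pool.Agent.E8helper17.MC (log_qq_pos PS_eq_tm)

section
variable {b b' : PP → ℂ} {M M' : ℝ}

lemma norm_sub_b (hb : ∀ x, ‖b x‖ ≤ M / (x.2 + 1 : ℕ)) (hb' : ∀ x, ‖b' x‖ ≤ M' / (x.2 + 1 : ℕ))
    (x : PP) : ‖b x - b' x‖ ≤ (M + M') / (x.2 + 1 : ℕ) := by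
  rw [add_div]
  exact (norm_sub_le _ _).trans (add_le_add (hb x) (hb' x))

lemma bl_sub (hb : ∀ x, ‖b x‖ ≤ M / (x.2 + 1 : ℕ)) (hb' : ∀ x, ‖b' x‖ ≤ M' / (x.2 + 1 : ℕ)) :
    ∀ᵐ τ : ℝ, bl (fun x => b x - b' x) τ = bl b τ - bl b' τ := by
  filter_upwards [ae_notMem hb, ae_notMem hb', ae_notMem (norm_sub_b hb hb')] with τ h1 h2 h3
  have e1 := (PS_tendsto hb h1).sub (PS_tendsto hb' h2)
  have e2 := PS_tendsto (norm_sub_b hb hb') h3
  refine tendsto_nhds_unique e2 (e1.congr fun X => ?_)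
  unfold PS
  rw [← Finset.sum_sub_distrib]
  refine Finset.sum_congr rfl fun x _ => ?_
  ring

lemma QF_pair (b : PP → ℂ) (x : PP) (ρ : ℂ) :
    QF b {1, qq x} (fun n => if n = 1 then 1 else ρ) = ρ * (b x / (qq x : ℂ)) := by
  have hq := two_le_qq x
  have hne : (1 : ℕ) ≠ qq x := by omega
  have hl : Real.log ((1 : ℕ) : ℝ) = 0 := by simp
  have hpos := log_qq_pos x
  have e1 : (fun n : ℕ => if n = 1 then (1 : ℂ) else ρ) 1 = 1 := if_pos rfl
  have e2 : (fun n : ℕ => if n = 1 then (1 : ℂ) else ρ) (qq x) = ρ := if_neg hne.symm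
  unfold QF
  rw [Finset.sum_pair hne, Finset.sum_pair hne, Finset.sum_pair hne, e1, e2,
    hl, sub_zero, zero_sub, sub_zero, sub_self, Ac_nonpos b le_rfl,
    Ac_nonpos b (by linarith : -Real.log (qq x) ≤ 0), Ac_log]
  simp

/-- **Rigidity.** -/
theorem rigid (hb : ∀ x, ‖b x‖ ≤ M / (x.2 + 1 : ℕ)) (hb' : ∀ x, ‖b' x‖ ≤ M' / (x.2 + 1 : ℕ))
    (hne : b ≠ b') : ∃ ε : ℝ, 0 < ε ∧ Often {u | (bl b' u).re + ε < (bl b u).re} := by
  obtain ⟨x, hx⟩ := Function.ne_iff.1 hne
  set D : ℂ := b x - b' x with hD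
  have hD0 : 0 < ‖D‖ := norm_pos_iff.2 (sub_ne_zero.2 hx)
  have hq : (0 : ℝ) < qq x := by exact_mod_cast (by have := two_le_qq x; omega : 0 < qq x)
  set ρ : ℂ := conj D / (‖D‖ : ℂ) with hρ
  have hρ1 : ‖ρ‖ = 1 := by
    rw [hρ, norm_div, RCLike.norm_conj, Complex.norm_real, norm_norm, div_self hD0.ne']
  have hρD : ρ * D = (‖D‖ : ℂ) := by
    have h0 : (‖D‖ : ℂ) ≠ 0 := by exact_mod_cast hD0.ne'
    rw [hρ, div_mul_eq_mul_div, mul_comm, Complex.mul_conj, Complex.normSq_eq_norm_sq]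
    push_cast
    field_simp
  set ε : ℝ := ‖D‖ / (4 * qq x) with hε
  have hε0 : 0 < ε := by positivity
  refine ⟨ε, hε0, ?_⟩
  have h1 : Often {u | ε < (bl (fun x => b x - b' x) u).re} := by
    refine peak (norm_sub_b hb hb') {1, qq x} ?_ (fun n => if n = 1 then 1 else ρ) ?_
    · intro n hn
      rw [Finset.mem_insert, Finset.mem_singleton] at hn
      have := two_le_qq x
      rcases hn with h | h <;> omega
    · have hne : (1 : ℕ) ≠ qq x := by
        have := two_le_qq x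
        omega
      rw [QF_pair, Finset.sum_pair hne, if_pos rfl, if_neg hne.symm, hρ1, norm_one]
      have h2 : ρ * ((b x - b' x) / (qq x : ℂ)) = ((‖D‖ / qq x : ℝ) : ℂ) := by
        rw [← hD, mul_div_assoc', hρD]
        push_cast
        rfl
      rw [h2, Complex.ofReal_re, hε]
      have h3 : ‖D‖ / (4 * qq x) * (1 ^ 2 + 1 ^ 2) = ‖D‖ / qq x / 2 := by
        field_simp
        norm_num
      rw [h3]
      have : 0 < ‖D‖ / qq x := by positivity
      linarith
  refine h1.mono_ae ?_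
  filter_upwards [bl_sub hb hb'] with u hu h2
  have h3 : ε < (bl (fun x => b x - b' x) u).re := h2
  rw [hu, Complex.sub_re] at h3
  change (bl b' u).re + ε < (bl b u).re
  linarith

/-! ### the resonator of the divisors -/

/-- the phases -/
noncomputable def ph (θ : Nat.Primes → ℝ) (q : ℕ) : ℂ := by
  classical exact if h : q.Prime then ee (-Real.log q) (θ ⟨q, h⟩) else 1

lemma norm_ph (θ : Nat.Primes → ℝ) (q : ℕ) : ‖ph θ q‖ = 1 := by
  unfold ph
  split_ifs
  · exact norm_ee _ _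
  · exact norm_one

lemma ph_prime (θ : Nat.Primes → ℝ) (p : Nat.Primes) :
    ph θ (p : ℕ) = ee (-Real.log (p : ℕ)) (θ p) := by
  unfold ph
  rw [dif_pos p.2]
  rfl

/-- the completely multiplicative function -/
noncomputable def cm (θ : Nat.Primes → ℝ) (n : ℕ) : ℂ := n.factorization.prod fun q a => ph θ q ^ a

lemma cm_mul (θ : Nat.Primes → ℝ) {m n : ℕ} (hm : m ≠ 0) (hn : n ≠ 0) :
    cm θ (m * n) = cm θ m * cm θ n := by
  unfold cm
  rw [Nat.factorization_mul hm hn, Finsupp.prod_add_index']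
  · intro a
    simp
  · intro a b c
    exact pow_add _ _ _

lemma norm_cm (θ : Nat.Primes → ℝ) (n : ℕ) : ‖cm θ n‖ = 1 := by
  unfold cm Finsupp.prod
  rw [norm_prod]
  refine Finset.prod_eq_one fun q _ => ?_
  rw [norm_pow, norm_ph, one_pow]

lemma cm_qq (θ : Nat.Primes → ℝ) (x : PP) : cm θ (qq x) = ee (fr x) (θ x.1) := by
  unfold cm qq
  rw [Nat.Prime.factorization_pow x.1.2, Finsupp.prod_single_index (by simp), ph_prime, ee_pow]
  unfold fr
  congr 1
  ring

/-- the product of the primes -/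
def QQ (F : Finset Nat.Primes) : ℕ := ∏ p ∈ F, (p : ℕ)

lemma QQ_ne (F : Finset Nat.Primes) : QQ F ≠ 0 := Finset.prod_ne_zero_iff.2 fun p _ => p.2.ne_zero

/-- the divisors -/
def AD (F : Finset Nat.Primes) (k : ℕ) : Finset ℕ := (QQ F ^ k).divisors

lemma mem_AD {F : Finset Nat.Primes} {k n : ℕ} : n ∈ AD F k ↔ n ∣ QQ F ^ k := by
  unfold AD
  rw [Nat.mem_divisors]
  exact ⟨fun h => h.1, fun h => ⟨h, pow_ne_zero _ (QQ_ne F)⟩⟩

lemma AD_ne {F : Finset Nat.Primes} {k n : ℕ} (h : n ∈ AD F k) : n ≠ 0 := by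
  rw [mem_AD] at h
  rintro rfl
  exact pow_ne_zero k (QQ_ne F) (zero_dvd_iff.1 h)

lemma mem_F_of_dvd {F : Finset Nat.Primes} {p : Nat.Primes} (h : (p : ℕ) ∣ QQ F) : p ∈ F := by
  unfold QQ at h
  obtain ⟨q, hq, hpq⟩ := (Prime.dvd_finsetProd_iff p.2.prime _).1 h
  have : p = q := Subtype.ext ((Nat.prime_dvd_prime_iff_eq p.2 q.2).1 hpq)
  rw [this]
  exact hq

lemma QQ_split {F : Finset Nat.Primes} {p : Nat.Primes} (hp : p ∈ F) :
    ∃ R : ℕ, R ≠ 0 ∧ QQ F = (p : ℕ) * R ∧ Nat.Coprime (p : ℕ) R := by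
  classical
  refine ⟨QQ (F.erase p), QQ_ne _, ?_, ?_⟩
  · unfold QQ
    rw [Finset.mul_prod_erase F (fun q : Nat.Primes => (q : ℕ)) hp]
  · rw [Nat.Prime.coprime_iff_not_dvd p.2]
    intro h
    exact Finset.notMem_erase p F (mem_F_of_dvd h)

lemma bound_exp {F : Finset Nat.Primes} {k : ℕ} {x : PP} (h : qq x ∣ QQ F ^ k) :
    x.1 ∈ F ∧ x.2 < k := by
  have h1 : (x.1 : ℕ) ∣ QQ F ^ k := by
    refine dvd_trans ?_ h
    unfold qq
    exact dvd_pow_self _ (by omega)
  have hF : x.1 ∈ F := mem_F_of_dvd (x.1.2.dvd_of_dvd_pow h1)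
  refine ⟨hF, ?_⟩
  obtain ⟨R, hR0, hR, hcop⟩ := QQ_split hF
  rw [hR, mul_pow] at h
  unfold qq at h
  have h2 : Nat.Coprime ((x.1 : ℕ) ^ (x.2 + 1)) (R ^ k) := Nat.Coprime.pow _ _ hcop
  have h3 := h2.dvd_of_dvd_mul_right h
  have := (Nat.pow_dvd_pow_iff_le_right x.1.2.one_lt).1 h3
  omega

/-- the number of the divisors `m` such that `m q` is a divisor too -/
def cnt (F : Finset Nat.Primes) (k : ℕ) (x : PP) : ℕ :=
  ((AD F k).filter fun m => m * qq x ∈ AD F k).card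

lemma cnt_eq {F : Finset Nat.Primes} {k : ℕ} {x : PP} (hF : x.1 ∈ F) (hk : x.2 < k) :
    cnt F k x * (k + 1) = (AD F k).card * (k - x.2) := by
  obtain ⟨R, hR0, hR, hcop⟩ := QQ_split hF
  have hp := x.1.2
  have h1 : (AD F k).card = (k + 1) * (R ^ k).divisors.card := by
    unfold AD
    rw [hR, mul_pow, Nat.Coprime.card_divisors_mul (Nat.Coprime.pow _ _ hcop),
      Nat.divisors_prime_pow hp, Finset.card_map, Finset.card_range]
  have h2 : (AD F k).filter (fun m => m * qq x ∈ AD F k) =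
      ((x.1 : ℕ) ^ (k - x.2 - 1) * R ^ k).divisors := by
    have hne : (x.1 : ℕ) ^ (k - x.2 - 1) * R ^ k ≠ 0 :=
      mul_ne_zero (pow_ne_zero _ hp.ne_zero) (pow_ne_zero _ hR0)
    have hq : QQ F ^ k = ((x.1 : ℕ) ^ (k - x.2 - 1) * R ^ k) * qq x := by
      rw [hR, mul_pow]
      unfold qq
      have : (x.1 : ℕ) ^ k = (x.1 : ℕ) ^ (k - x.2 - 1) * (x.1 : ℕ) ^ (x.2 + 1) := by
        rw [← pow_add]
        congr 1
        omega
      rw [this]
      ring
    have hq0 : 0 < qq x := by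
      have := two_le_qq x
      omega
    ext m
    rw [Finset.mem_filter, mem_AD, mem_AD, Nat.mem_divisors]
    constructor
    · rintro ⟨_, h3⟩
      rw [hq] at h3
      exact ⟨(Nat.mul_dvd_mul_iff_right hq0).1 h3, hne⟩
    · rintro ⟨h3, _⟩
      have h4 : m * qq x ∣ QQ F ^ k := by
        rw [hq]
        exact Nat.mul_dvd_mul_right h3 _
      exact ⟨(Dvd.intro _ rfl).trans h4, h4⟩
  unfold cnt
  rw [h2, h1, Nat.Coprime.card_divisors_mul (Nat.Coprime.pow _ _ hcop),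
    Nat.divisors_prime_pow hp, Finset.card_map, Finset.card_range]
  have h3 : k - x.2 - 1 + 1 = k - x.2 := by omega
  rw [h3]
  ring

lemma QF_AD (b : PP → ℂ) (F : Finset Nat.Primes) (k : ℕ) (θ : Nat.Primes → ℝ) :
    QF b (AD F k) (cm θ) = ∑ x ∈ F ×ˢ Finset.range k,
      (cnt F k x : ℂ) * tm b (1 + (θ x.1) * I) x := by
  classical
  set A := AD F k with hA
  set T : Finset (PP × ℕ) := ((F ×ˢ Finset.range k) ×ˢ A).filter fun t => t.2 * qq t.1 ∈ A with hT
  set g : ℕ × ℕ → ℂ := fun y => (cm θ y.1 * conj (cm θ y.2)) * Ac b (Real.log y.1 - Real.log y.2)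
    with hg
  have h1 : QF b A (cm θ) = ∑ y ∈ A ×ˢ A, g y := by
    unfold QF
    rw [Finset.sum_product]
  have hqpos : ∀ x : PP, (0 : ℝ) < qq x := fun x => by
    exact_mod_cast (by have := two_le_qq x; omega : 0 < qq x)
  have hlog : ∀ (m : ℕ) (x : PP), m ≠ 0 →
      Real.log ((m * qq x : ℕ) : ℝ) - Real.log m = Real.log (qq x) := by
    intro m x hm
    have hm' : (m : ℝ) ≠ 0 := by exact_mod_cast hm
    rw [Nat.cast_mul, Real.log_mul hm' (hqpos x).ne']
    ring
  have h2 : ∑ t ∈ T, g (t.2 * qq t.1, t.2) = ∑ y ∈ A ×ˢ A, g y := by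
    refine Finset.sum_of_injOn (fun t : PP × ℕ => (t.2 * qq t.1, t.2)) ?_ ?_ ?_ fun _ _ => rfl
    · intro t ht t' ht' h
      rw [Finset.mem_coe, hT, Finset.mem_filter, Finset.mem_product] at ht ht'
      simp only [Prod.mk.injEq] at h
      obtain ⟨e1, e2⟩ := h
      have hm : t.2 ≠ 0 := AD_ne ht.1.2
      rw [← e2] at e1
      have e3 := Nat.eq_of_mul_eq_mul_left (Nat.pos_of_ne_zero hm) e1
      exact Prod.ext (qq_injective e3) e2
    · intro t ht
      rw [Finset.mem_coe, hT, Finset.mem_filter, Finset.mem_product] at ht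
      rw [Finset.mem_coe, Finset.mem_product]
      exact ⟨ht.2, ht.1.2⟩
    · rintro ⟨n, m⟩ hy hnot
      rw [Finset.mem_product] at hy
      rw [hg]
      simp only
      rw [Ac_none, mul_zero]
      intro x hx
      apply hnot
      have hn0 : n ≠ 0 := AD_ne hy.1
      have hm0 : m ≠ 0 := AD_ne hy.2
      have hn' : (0 : ℝ) < n := by exact_mod_cast Nat.pos_of_ne_zero hn0
      have hm' : (0 : ℝ) < m := by exact_mod_cast Nat.pos_of_ne_zero hm0
      have e1 : Real.log n = Real.log ((m * qq x : ℕ) : ℝ) := by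
        have := hlog m x hm0
        linarith
      have hmq : (0 : ℝ) < ((m * qq x : ℕ) : ℝ) := by
        rw [Nat.cast_mul]
        exact mul_pos hm' (hqpos x)
      have e2 := Real.log_injOn_pos (Set.mem_Ioi.2 hn') (Set.mem_Ioi.2 hmq) e1
      have e3 : n = m * qq x := by exact_mod_cast e2
      have e4 : qq x ∣ QQ F ^ k := by
        have h5 := mem_AD.1 hy.1
        simp only at h5
        rw [e3] at h5
        exact (Dvd.intro_left _ rfl).trans h5
      obtain ⟨e5, e6⟩ := bound_exp e4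
      refine ⟨(x, m), ?_, ?_⟩
      · rw [Finset.mem_coe, hT, Finset.mem_filter, Finset.mem_product, Finset.mem_product,
          Finset.mem_range]
        refine ⟨⟨⟨e5, e6⟩, hy.2⟩, ?_⟩
        simp only
        rw [← e3]
        exact hy.1
      · simp only
        rw [← e3]
  rw [h1, ← h2, hT, Finset.sum_filter, Finset.sum_product]
  refine Finset.sum_congr rfl fun x _ => ?_
  simp only
  rw [← Finset.sum_filter]
  have h3 : ∀ m ∈ A.filter (fun m => m * qq x ∈ A), g (m * qq x, m) =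
      tm b (1 + (θ x.1) * I) x := by
    intro m hm
    rw [Finset.mem_filter] at hm
    have hm0 : m ≠ 0 := AD_ne hm.1
    have hq0 : qq x ≠ 0 := by
      have := two_le_qq x
      omega
    rw [hg]
    simp only
    rw [hlog m x hm0, Ac_log, cm_mul θ hm0 hq0, cm_qq, tm_edge, wt_one]
    have h4 : cm θ m * conj (cm θ m) = 1 := by
      rw [Complex.mul_conj, Complex.normSq_eq_norm_sq, norm_cm]
      simp
    calc cm θ m * ee (fr x) (θ x.1) * conj (cm θ m) * (b x / (qq x : ℂ)) =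
        (cm θ m * conj (cm θ m)) * (ee (fr x) (θ x.1) * (b x / (qq x : ℂ))) := by ring
      _ = ee (fr x) (θ x.1) * (b x / (qq x : ℂ)) := by rw [h4, one_mul]
      _ = _ := by
        push_cast
        ring
  rw [Finset.sum_congr rfl h3, Finset.sum_const, nsmul_eq_mul]
  rfl

lemma smooth_tendsto (hb : ∀ x, ‖b x‖ ≤ M / (x.2 + 1 : ℕ)) (p : Nat.Primes) (τ : ℝ) :
    Tendsto (fun k : ℕ => ∑ j ∈ Finset.range k,
      (((k - j : ℕ) : ℝ) / (k + 1)) * (tm b (1 + τ * I) (p, j)).re) atTop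
      (𝓝 (lp b p τ).re) := by
  set f : ℕ → ℝ := fun j => (tm b (1 + τ * I) (p, j)).re with hf
  have hs : HasSum f (lp b p τ).re := by
    have h1 := (summable_lp hb p τ).hasSum
    exact Complex.hasSum_re h1
  have h2 : ∀ k : ℕ, ∑ j ∈ Finset.range k, (((k - j : ℕ) : ℝ) / (k + 1)) * f j =
      ∑' j : ℕ, if j < k then (((k - j : ℕ) : ℝ) / (k + 1)) * f j else 0 := by
    intro k
    rw [tsum_eq_sum (s := Finset.range k)]
    · refine Finset.sum_congr rfl fun j hj => ?_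
      rw [if_pos (Finset.mem_range.1 hj)]
    · intro j hj
      rw [if_neg fun h => hj (Finset.mem_range.2 h)]
  change Tendsto (fun k : ℕ => ∑ j ∈ Finset.range k, (((k - j : ℕ) : ℝ) / (k + 1)) * f j) atTop _
  simp_rw [h2]
  rw [← hs.tsum_eq]
  refine tendsto_tsum_of_dominated_convergence (bound := fun j => M * ce (p, j))
    ((summable_ce_p p).mul_left M) (fun j => ?_) (Eventually.of_forall fun k j => ?_)
  · have h3 : Tendsto (fun k : ℕ => (((k - j : ℕ) : ℝ) / (k + 1)) * f j) atTop (𝓝 (1 * f j)) := by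
      refine Tendsto.mul_const _ ?_
      have h4 : Tendsto (fun k : ℕ => 1 - ((j : ℝ) + 1) * (1 / ((k : ℝ) + 1))) atTop
          (𝓝 (1 - ((j : ℝ) + 1) * 0)) :=
        tendsto_const_nhds.sub (tendsto_one_div_add_atTop_nhds_zero_nat.const_mul _)
      rw [mul_zero, sub_zero] at h4
      refine h4.congr' ?_
      filter_upwards [eventually_ge_atTop j] with k hk
      have h5 : (0 : ℝ) < (k : ℝ) + 1 := by positivity
      rw [Nat.cast_sub hk]
      field_simp
      ring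
    rw [one_mul] at h3
    refine h3.congr' ?_
    filter_upwards [eventually_gt_atTop j] with k hk
    rw [if_pos hk]
  · have h3 : |f j| ≤ M * ce (p, j) :=
      (Complex.abs_re_le_norm _).trans (norm_tm_edge hb (p, j) τ)
    split_ifs with h
    · rw [norm_mul, Real.norm_eq_abs, Real.norm_eq_abs]
      have h4 : |((k - j : ℕ) : ℝ) / ((k : ℝ) + 1)| ≤ 1 := by
        rw [abs_of_nonneg (by positivity), div_le_one (by positivity)]
        have : ((k - j : ℕ) : ℝ) ≤ k := by exact_mod_cast Nat.sub_le _ _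
        linarith
      exact (mul_le_of_le_one_left (abs_nonneg _) h4).trans h3
    · rw [norm_zero]
      exact (abs_nonneg _).trans h3

/-- **The lower bound for the supremum over the windows.** -/
theorem peak_local (hb : ∀ x, ‖b x‖ ≤ M / (x.2 + 1 : ℕ)) (F : Finset Nat.Primes)
    (θ : Nat.Primes → ℝ) {c : ℝ} (hc : c < ∑ p ∈ F, (lp b p (θ p)).re) :
    Often {u | c < (bl b u).re} := by
  have h1 : Tendsto (fun k : ℕ => ∑ p ∈ F, ∑ j ∈ Finset.range k,
      (((k - j : ℕ) : ℝ) / (k + 1)) * (tm b (1 + (θ p) * I) (p, j)).re) atTop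
      (𝓝 (∑ p ∈ F, (lp b p (θ p)).re)) :=
    tendsto_finsetSum _ fun p _ => smooth_tendsto hb p (θ p)
  obtain ⟨k, hk⟩ := (h1.eventually (lt_mem_nhds hc)).exists
  refine peak hb (AD F k) (fun n hn => AD_ne hn) (cm θ) ?_
  have h2 : ∑ n ∈ AD F k, ‖cm θ n‖ ^ 2 = (AD F k).card := by
    rw [Finset.sum_congr rfl fun n _ => by rw [norm_cm, one_pow]]
    simp
  have hcard : (0 : ℝ) < (AD F k).card := by
    have : 0 < (AD F k).card := Finset.card_pos.2 ⟨1, mem_AD.2 (one_dvd _)⟩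
    exact_mod_cast this
  have h3 : (QF b (AD F k) (cm θ)).re = (AD F k).card * ∑ p ∈ F, ∑ j ∈ Finset.range k,
      (((k - j : ℕ) : ℝ) / (k + 1)) * (tm b (1 + (θ p) * I) (p, j)).re := by
    rw [QF_AD, Complex.re_sum, ← Finset.sum_product', Finset.mul_sum]
    refine Finset.sum_congr rfl fun x hx => ?_
    rw [Finset.mem_product, Finset.mem_range] at hx
    have h4 : ((cnt F k x : ℕ) : ℂ) = (((cnt F k x : ℕ) : ℝ) : ℂ) := by push_cast; rfl
    rw [h4, Complex.re_ofReal_mul]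
    have h5 : ((cnt F k x : ℕ) : ℝ) * ((k : ℝ) + 1) = (AD F k).card * ((k - x.2 : ℕ) : ℝ) := by
      exact_mod_cast cnt_eq hx.1 hx.2
    have h6 : ((cnt F k x : ℕ) : ℝ) = (AD F k).card * (((k - x.2 : ℕ) : ℝ) / ((k : ℝ) + 1)) := by
      rw [mul_div_assoc', eq_div_iff (by positivity)]
      exact h5
    rw [h6]
    ring
  rw [h2, h3, mul_comm]
  exact mul_lt_mul_of_pos_left hk hcard

end

end Pool.Agent.E8helper69.AP
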