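import Pool.Agent.E8helper69.AP.E

/-!
# The upper bound for the supremum, and the criterion for boundedness
-/

set_option autoImplicit false

namespace Pool.Agent.E8helper69.AP

open Complex MeasureTheory Finset Filter Topology Set
open scoped ComplexConjugate ENNReal
open Pool.Agent.TH339.MP
open Pool.Agent.W350.Edge (ps divSet)
open Pool.Agent.E8helper17.MC (log_qq_pos PS_eq_tm)

section
variable {b b' : PP → ℂ} {M M' : ℝ}

lemma fin_PX (X : ℕ) : {p : Nat.Primes | (p : ℕ) < X}.Finite :=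
  (Set.finite_Iio X).preimage Nat.Primes.coe_nat_injective.injOn

/-- the primes below `X` -/
noncomputable def PX (X : ℕ) : Finset Nat.Primes := (fin_PX X).toFinset

lemma mem_PX {X : ℕ} {p : Nat.Primes} : p ∈ PX X ↔ (p : ℕ) < X := by
  rw [PX, Set.Finite.mem_toFinset, Set.mem_ofPred_eq]

lemma PX_tendsto : Tendsto PX atTop atTop := by
  refine tendsto_atTop_finset_of_monotone ?_ ?_
  · intro X Y hXY p hp
    rw [mem_PX] at hp ⊢
    omega
  · intro p
    exact ⟨(p : ℕ) + 1, mem_PX.2 (by omega)⟩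

lemma lp_split (hb : ∀ x, ‖b x‖ ≤ M / (x.2 + 1 : ℕ)) (p : Nat.Primes) (τ : ℝ) :
    lp b p τ = tm b (1 + τ * I) (p, 0) + ∑' k : ℕ, tm b (1 + τ * I) (sh (p, k)) :=
  (summable_lp hb p τ).tsum_eq_zero_add

/-- the sum of the logarithms of the local factors -/
lemma sum_lp_tendsto (hb : ∀ x, ‖b x‖ ≤ M / (x.2 + 1 : ℕ)) {τ : ℝ} (hτ : τ ∉ divSet (ap b)) :
    Tendsto (fun X => ∑ p ∈ PX X, lp b p τ) atTop (𝓝 (bl b τ)) := by
  obtain ⟨l, h1, h2⟩ := bl_spec hτ
  have hs1 : (1 : ℝ) ≤ ((1 : ℂ) + τ * I).re := by simp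
  have h3 : HasSum (fun p : Nat.Primes => ∑' k : ℕ, tm b (1 + τ * I) (sh (p, k)))
      (hpart b (1 + τ * I)) := by
    have h4 := summable_sh hb hs1
    exact h4.hasSum.prod_fiberwise fun p => (h4.comp_injective
      (i := fun k : ℕ => ((p, k) : PP)) fun k l h => congrArg Prod.snd h).hasSum
  have h5 := h3.comp PX_tendsto
  rw [h2]
  refine (h1.add h5).congr fun X => ?_
  simp only [Function.comp_apply]
  have h6 : ps (ap b) τ X = ∑ p ∈ PX X, tm b (1 + τ * I) (p, 0) := by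
    have h7 : ps (ap b) τ X =
        ∑ n ∈ (Finset.range X).filter Nat.Prime, Pool.Agent.W350.Edge.term (ap b) τ n := by
      unfold Pool.Agent.W350.Edge.ps
      rw [Finset.sum_filter]
      refine Finset.sum_congr rfl fun n _ => ?_
      split_ifs with h
      · rfl
      · unfold Pool.Agent.W350.Edge.term
        rw [if_neg h]
    rw [h7]
    symm
    refine Finset.sum_bij (fun p _ => (p : ℕ)) ?_ ?_ ?_ ?_
    · intro p hp
      rw [mem_PX] at hp
      rw [Finset.mem_filter, Finset.mem_range]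
      exact ⟨hp, p.2⟩
    · intro p _ q _ h
      exact Subtype.ext h
    · intro n hn
      rw [Finset.mem_filter, Finset.mem_range] at hn
      exact ⟨⟨n, hn.2⟩, mem_PX.2 hn.1, rfl⟩
    · intro p _
      have h8 := term_eq b 0 τ p
      rw [neg_zero, zero_mul, Complex.exp_zero, one_mul, add_zero] at h8
      exact h8.symm
  rw [h6, ← Finset.sum_add_distrib]
  exact Finset.sum_congr rfl fun p _ => (lp_split hb p τ).symm

/-- **The upper bound for the supremum.** -/
theorem upper (hb : ∀ x, ‖b x‖ ≤ M / (x.2 + 1 : ℕ)) {C : ℝ}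
    (hC : ∀ (F : Finset Nat.Primes) (θ : Nat.Primes → ℝ), ∑ p ∈ F, (lp b p (θ p)).re ≤ C) :
    ∀ᵐ τ : ℝ, (bl b τ).re ≤ C := by
  filter_upwards [ae_notMem hb] with τ hτ
  have h1 := (Complex.continuous_re.tendsto _).comp (sum_lp_tendsto hb hτ)
  refine le_of_tendsto' h1 fun X => ?_
  simp only [Function.comp_apply]
  rw [Complex.re_sum]
  exact hC (PX X) fun _ => τ

/-- the size of the coefficient of `p^{-s}` -/
noncomputable def sz (b : PP → ℂ) (p : Nat.Primes) : ℝ := ‖b (p, 0)‖ / (p : ℕ)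

lemma sz_nonneg (b : PP → ℂ) (p : Nat.Primes) : 0 ≤ sz b p := by
  unfold sz
  have := prime_pos p
  positivity

lemma norm_tm_zero (b : PP → ℂ) (p : Nat.Primes) (τ : ℝ) :
    ‖tm b (1 + τ * I) (p, 0)‖ = sz b p := by
  rw [tm_edge, norm_mul, norm_ee, mul_one, norm_mul, Complex.norm_real,
    Real.norm_of_nonneg (wt_nonneg _ _), wt_one]
  unfold sz qq
  simp only [zero_add, pow_one]
  ring

lemma exists_phase (b : PP → ℂ) (p : Nat.Primes) :
    ∃ τ : ℝ, tm b (1 + τ * I) (p, 0) = ((sz b p : ℝ) : ℂ) := by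
  have hl := log_prime_pos p
  set z : ℂ := b (p, 0) with hz
  refine ⟨Complex.arg z / Real.log (p : ℕ), ?_⟩
  rw [tm_edge, wt_one]
  have h1 : ee (fr (p, 0)) (Complex.arg z / Real.log (p : ℕ)) = Complex.exp (-(Complex.arg z) * I) := by
    unfold ee fr
    congr 1
    simp only
    have h2 : -(((0 + 1 : ℕ) : ℝ) * Real.log ((p : ℕ) : ℝ)) * (Complex.arg z /
        Real.log ((p : ℕ) : ℝ)) = -Complex.arg z := by
      push_cast
      field_simp
    rw [h2]
    push_cast
    ring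
  have h3 : z * Complex.exp (-(Complex.arg z) * I) = ((‖z‖ : ℝ) : ℂ) := by
    conv_lhs => rw [← Complex.norm_mul_exp_arg_mul_I z]
    rw [mul_assoc, ← Complex.exp_add]
    have : (Complex.arg ((‖z‖ : ℂ) * Complex.exp ((Complex.arg z) * I)) : ℂ) =
        ((Complex.arg z : ℝ) : ℂ) := by
      rw [Complex.norm_mul_exp_arg_mul_I z]
    rw [this]
    have h4 : ((Complex.arg z : ℝ) : ℂ) * I + -((Complex.arg z : ℝ) : ℂ) * I = 0 := by ring
    rw [h4, Complex.exp_zero, mul_one]
  rw [h1]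
  have h5 : b (p, 0) * (((1 / (qq (p, 0) : ℝ)) : ℝ) : ℂ) * Complex.exp (-(Complex.arg z) * I) =
      (((1 / (qq (p, 0) : ℝ)) : ℝ) : ℂ) * (z * Complex.exp (-(Complex.arg z) * I)) := by
    rw [← hz]
    ring
  rw [h5, h3]
  unfold sz qq
  simp only [zero_add, pow_one]
  push_cast
  ring

/-- the first order resonator -/
theorem peak_first (hb : ∀ x, ‖b x‖ ≤ M / (x.2 + 1 : ℕ)) (F : Finset Nat.Primes) {c : ℝ}
    (hc : c < (∑ p ∈ F, sz b p) / 2) : Often {u | c < (bl b u).re} := by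
  choose θ hθ using exists_phase b
  refine peak hb (AD F 1) (fun n hn => AD_ne hn) (cm θ) ?_
  have h2 : ∑ n ∈ AD F 1, ‖cm θ n‖ ^ 2 = (AD F 1).card := by
    rw [Finset.sum_congr rfl fun n _ => by rw [norm_cm, one_pow]]
    simp
  have hcard : (0 : ℝ) < (AD F 1).card := by
    have : 0 < (AD F 1).card := Finset.card_pos.2 ⟨1, mem_AD.2 (one_dvd _)⟩
    exact_mod_cast this
  have h3 : (QF b (AD F 1) (cm θ)).re = (AD F 1).card * ((∑ p ∈ F, sz b p) / 2) := by
    rw [QF_AD, Complex.re_sum, Finset.sum_product, Finset.sum_div, Finset.mul_sum]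
    refine Finset.sum_congr rfl fun p hp => ?_
    rw [Finset.sum_range_one, hθ]
    have h4 : ((cnt F 1 (p, 0) : ℕ) : ℂ) = (((cnt F 1 (p, 0) : ℕ) : ℝ) : ℂ) := by push_cast; rfl
    rw [h4, Complex.re_ofReal_mul, Complex.ofReal_re]
    have h5 := cnt_eq (k := 1) (x := (p, 0)) hp one_pos
    simp only [Nat.sub_zero, mul_one] at h5
    have h6 : ((cnt F 1 (p, 0) : ℕ) : ℝ) * 2 = (AD F 1).card := by exact_mod_cast h5
    have h7 : ((cnt F 1 (p, 0) : ℕ) : ℝ) = (AD F 1).card / 2 := by linarith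
    rw [h7]
    ring
  rw [h2, h3, mul_comm]
  exact mul_lt_mul_of_pos_left hc hcard

/-- the sum of the proper prime powers -/
lemma summable_rest : Summable fun p : Nat.Primes => ∑' k : ℕ, wt 1 (sh (p, k)) :=
  wt_sh_summable.prod

lemma re_lp_le (hb : ∀ x, ‖b x‖ ≤ M / (x.2 + 1 : ℕ)) (p : Nat.Primes) (τ : ℝ) :
    |(lp b p τ).re| ≤ sz b p + M * ∑' k : ℕ, wt 1 (sh (p, k)) := by
  refine (Complex.abs_re_le_norm _).trans ?_
  rw [lp_split hb, ← norm_tm_zero b p τ]
  refine (norm_add_le _ _).trans (add_le_add le_rfl ?_)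
  have hs : Summable fun k : ℕ => wt 1 (sh (p, k)) :=
    wt_sh_summable.comp_injective (i := fun k : ℕ => ((p, k) : PP)) fun k l h =>
      congrArg Prod.snd h
  rw [← tsum_mul_left]
  exact tsum_of_norm_bounded (hs.mul_left M).hasSum fun k => norm_tm_sh hb (by simp) (p, k)

/-- **The dichotomy.** -/
theorem dichotomy (hb : ∀ x, ‖b x‖ ≤ M / (x.2 + 1 : ℕ)) :
    (Summable (sz b) → ∃ C : ℝ, ∀ᵐ τ : ℝ, |(bl b τ).re| ≤ C) ∧
    (¬ Summable (sz b) → ∀ C : ℝ, Often {u | C < (bl b u).re}) := by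
  constructor
  · intro hs
    refine ⟨∑' p : Nat.Primes, (sz b p + M * ∑' k : ℕ, wt 1 (sh (p, k))), ?_⟩
    have hsum : Summable fun p : Nat.Primes => sz b p + M * ∑' k : ℕ, wt 1 (sh (p, k)) :=
      hs.add (summable_rest.mul_left M)
    filter_upwards [ae_notMem hb] with τ hτ
    have h1 := ((Complex.continuous_re.tendsto _).comp (sum_lp_tendsto hb hτ)).abs
    refine le_of_tendsto' h1 fun X => ?_
    simp only [Function.comp_apply]
    rw [Complex.re_sum]
    refine (Finset.abs_sum_le_sum_abs _ _).trans ?_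
    refine (Finset.sum_le_sum fun p _ => re_lp_le hb p τ).trans ?_
    refine hsum.sum_le_tsum _ fun p _ => ?_
    exact add_nonneg (sz_nonneg b p) (mul_nonneg (M_nonneg hb) (tsum_nonneg fun k => wt_nonneg _ _))
  · intro hs C
    by_contra hcon
    apply hs
    refine summable_of_sum_le (c := 2 * (|C| + 1)) (sz_nonneg b) fun F => ?_
    by_contra hF
    rw [not_le] at hF
    apply hcon
    refine peak_first hb F ?_
    have := le_abs_self C
    linarith

end

end Pool.Agent.E8helper69.AP
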