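import Pool.Agent.E8helper69.AP.F
import Pool.Agent.TH958.BV.Local
import Pool.Agent.W350.EdgeNF

/-!
# Euler products over number fields on the edge
-/

set_option autoImplicit false

namespace Pool.Agent.E8helper69.AP

open Complex MeasureTheory Finset Filter Topology Set NumberField IsDedekindDomain
open scoped ComplexConjugate ENNReal
open Pool.Agent.TH339.MP
open Pool.Agent.W350.Edge (ps divSet)
open Pool.Agent.W350.EdgeV (FV mem_FV vt grp tendsto_places at_point_V fiber_finite)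
open Pool.Agent.TH958.BV (uj rem continuous_uj)

section loc
variable {N : ℕ}

lemma nuj {q : ℕ} (hq : 2 ≤ q) {β : Fin N → ℂ} (hβ : ∀ j, ‖β j‖ ≤ 1) (j : Fin N) {s : ℂ}
    (hs : 1 ≤ s.re) : ‖uj q β j s‖ ≤ 1 / q := by
  have hq0 : (0 : ℝ) < q := by exact_mod_cast (by omega : 0 < q)
  have hq1 : (1 : ℝ) ≤ q := by exact_mod_cast (by omega : 1 ≤ q)
  unfold uj
  rw [norm_mul, Complex.norm_natCast_cpow_of_pos (by omega)]
  have h1 : (q : ℝ) ^ (-s).re ≤ 1 / q := by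
    rw [one_div, ← Real.rpow_neg_one]
    refine Real.rpow_le_rpow_of_exponent_le hq1 ?_
    rw [Complex.neg_re]
    linarith
  exact (mul_le_of_le_one_left (by positivity) (hβ j)).trans h1

lemma nuj_half {q : ℕ} (hq : 2 ≤ q) {β : Fin N → ℂ} (hβ : ∀ j, ‖β j‖ ≤ 1) (j : Fin N) {s : ℂ}
    (hs : 1 ≤ s.re) : ‖uj q β j s‖ ≤ 1 / 2 :=
  (nuj hq hβ j hs).trans (one_div_le_one_div_of_le two_pos (by exact_mod_cast hq))

lemma nrem {q : ℕ} (hq : 2 ≤ q) {β : Fin N → ℂ} (hβ : ∀ j, ‖β j‖ ≤ 1) {s : ℂ}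
    (hs : 1 ≤ s.re) : ‖rem q β s‖ ≤ N * (q : ℝ) ^ (-2 : ℝ) := by
  have hq0 : (0 : ℝ) < q := by exact_mod_cast (by omega : 0 < q)
  unfold rem
  refine (norm_sum_le_of_le (f := fun j => -Complex.log (1 - uj q β j s) - uj q β j s)
    (n := fun _ => (q : ℝ) ^ (-2 : ℝ)) _ fun j _ => ?_).trans ?_
  · have h1 := nuj hq hβ j hs
    have h2 := nuj_half hq hβ j hs
    have h3 : ‖-uj q β j s‖ < 1 := by
      rw [norm_neg]
      linarith
    have h4 := Complex.norm_log_one_add_sub_self_le h3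
    rw [norm_neg] at h4
    have h5 : -Complex.log (1 - uj q β j s) - uj q β j s =
        -(Complex.log (1 + -uj q β j s) - -uj q β j s) := by
      rw [sub_eq_add_neg (1 : ℂ) (uj q β j s)]
      ring
    rw [h5, norm_neg]
    refine h4.trans ?_
    have h7 : (1 - ‖uj q β j s‖)⁻¹ ≤ 2 := by
      rw [inv_le_comm₀ (by linarith) (by norm_num)]
      linarith
    have h8 : ‖uj q β j s‖ ^ 2 ≤ (1 / q) ^ 2 := pow_le_pow_left₀ (norm_nonneg _) h1 2
    have h9 : (1 / (q : ℝ)) ^ 2 = (q : ℝ) ^ (-2 : ℝ) := by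
      rw [Real.rpow_neg hq0.le, Real.rpow_two, one_div, inv_pow]
    have h10 : 0 < (1 - ‖uj q β j s‖)⁻¹ := inv_pos.2 (by linarith)
    rw [h9] at h8
    calc ‖uj q β j s‖ ^ 2 * (1 - ‖uj q β j s‖)⁻¹ / 2 ≤ (q : ℝ) ^ (-2 : ℝ) * 2 / 2 := by
          have := mul_le_mul h8 h7 h10.le (by positivity)
          linarith
      _ = _ := by ring
  · rw [sum_const, card_univ, Fintype.card_fin, nsmul_eq_mul]

lemma slit {q : ℕ} (hq : 2 ≤ q) {β : Fin N → ℂ} (hβ : ∀ j, ‖β j‖ ≤ 1) (j : Fin N) {s : ℂ}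
    (hs : 1 ≤ s.re) : 1 - uj q β j s ∈ Complex.slitPlane := by
  refine Or.inl ?_
  have h3 := nuj_half hq hβ j hs
  have h4 := Complex.re_le_norm (uj q β j s)
  rw [Complex.sub_re, Complex.one_re]
  linarith

lemma crem {q : ℕ} (hq : 2 ≤ q) {β : Fin N → ℂ} (hβ : ∀ j, ‖β j‖ ≤ 1) {s : ℂ}
    (hs : 1 ≤ s.re) : ContinuousAt (rem q β) s := by
  unfold rem
  refine tendsto_finsetSum _ fun j _ => ?_
  have h1 : ContinuousAt (fun s => Complex.log (1 - uj q β j s)) s :=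
    ContinuousAt.clog ((continuous_const.sub (continuous_uj hq β j)).continuousAt)
      (slit hq hβ j hs)
  exact (h1.neg.sub (continuous_uj hq β j).continuousAt).tendsto

lemma fac_eq {q : ℕ} (hq : 2 ≤ q) {β : Fin N → ℂ} (hβ : ∀ j, ‖β j‖ ≤ 1) {s : ℂ}
    (hs : 1 ≤ s.re) : ∏ j, (1 - β j * (q : ℂ) ^ (-s))⁻¹ =
      Complex.exp ((∑ j, β j) * (q : ℂ) ^ (-s) + rem q β s) := by
  have h1 : (∑ j, β j) * (q : ℂ) ^ (-s) + rem q β s = ∑ j, -Complex.log (1 - uj q β j s) := by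
    unfold rem uj
    rw [sum_mul, ← sum_add_distrib]
    refine sum_congr rfl fun j _ => ?_
    ring
  rw [h1, Complex.exp_sum]
  refine prod_congr rfl fun j _ => ?_
  rw [Complex.exp_neg, Complex.exp_log (Complex.slitPlane_ne_zero (slit hq hβ j hs))]
  rfl

lemma fterm {q : ℕ} (hq : 2 ≤ q) (A : ℂ) (τ : ℝ) (z : ℂ) :
    Complex.exp (-z * Real.log q) * (A / q * Complex.exp (-(τ * Real.log q) * Complex.I)) =
      A * (q : ℂ) ^ (-(((1 : ℝ) : ℂ) + τ * Complex.I + z)) := by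
  have h := Pool.Agent.TH958.BV.first_term hq A 0 τ z
  have h1 : (((q : ℝ) ^ ((0 : ℝ) / 2) : ℝ) : ℂ) = 1 := by simp
  rw [h1, div_one] at h
  rw [h]
  norm_num

end loc

section
variable {K : Type} [Field K] [NumberField K] {N : ℕ}

/-- the Euler factor -/
noncomputable def fc (β : HeightOneSpectrum (𝓞 K) → Fin N → ℂ) (v : HeightOneSpectrum (𝓞 K))
    (s : ℂ) : ℂ := ∏ j, (1 - β v j * ((nm v : ℕ) : ℂ) ^ (-s))⁻¹

variable {β : HeightOneSpectrum (𝓞 K) → Fin N → ℂ}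

lemma grp_eq (β : HeightOneSpectrum (𝓞 K) → Fin N → ℂ) (P : Nat.Primes) : ap (bb β) (P : ℕ) =
    grp (N := (nm : HeightOneSpectrum (𝓞 K) → ℕ)) (fun v => ∑ j, β v j) (P : ℕ) := by
  classical
  unfold ap grp
  rw [dif_pos P.2]
  have hfin := fiber_finite (N := (nm : HeightOneSpectrum (𝓞 K) → ℕ))
    Pool.Agent.W350.EdgeNF.hfin (P : ℕ)
  have := hfin.fintype
  rw [tsum_fintype]
  have h0 : bb β (⟨(P : ℕ), P.2⟩, 0) = ∑ v ∈ Sp P, if dg v = 1 then ∑ j, β v j else 0 := by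
    unfold bb
    refine Finset.sum_congr rfl fun v _ => ?_
    simp only [zero_add, Nat.dvd_one]
    split_ifs with h
    · rw [h]
      simp
    · rfl
  rw [h0, ← Finset.sum_filter]
  refine Finset.sum_subtype (s := (Sp P).filter (fun v => dg v = 1))
    (p := fun v => v ∈ (nm : HeightOneSpectrum (𝓞 K) → ℕ) ⁻¹' {(P : ℕ)}) (fun v => ?_) _
  rw [Finset.mem_filter, mem_Sp]
  constructor
  · rintro ⟨h2, h3⟩
    change nm v = (P : ℕ)
    rw [nm_eq, h2, h3, pow_one]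
  · intro h2
    have h2' : nm v = (P : ℕ) := h2
    have h3 : (pr v : ℕ) ∣ (P : ℕ) := by
      rw [← h2', nm_eq]
      exact dvd_pow_self _ (dg_pos v).ne'
    have h4 : (pr v : ℕ) = (P : ℕ) := (Nat.prime_dvd_prime_iff_eq (pr v).2 P.2).1 h3
    refine ⟨Subtype.ext h4, ?_⟩
    have h5 := nm_eq v
    rw [h2', h4] at h5
    have h6 : (P : ℕ) ^ 1 = (P : ℕ) ^ dg v := by rw [pow_one]; exact h5
    exact (Nat.pow_right_injective P.2.two_le h6).symm

/-- **The product of the Euler factors on the edge.** -/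
theorem prod_tendsto (hβ : ∀ v j, ‖β v j‖ ≤ 1) {τ : ℝ} (hτ : τ ∉ divSet (ap (bb β))) :
    Tendsto (fun x : ℕ => ∏ v ∈ FV nm Pool.Agent.W350.EdgeNF.hfin x, fc β v (1 + τ * I)) atTop
      (𝓝 (Complex.exp (bl (bb β) τ))) := by
  classical
  have hN := Pool.Agent.W350.EdgeNF.hN (K := K)
  have hfin := Pool.Agent.W350.EdgeNF.hfin (K := K)
  have htr : ∀ v, ‖∑ j, β v j‖ ≤ N := by
    intro v
    refine (norm_sum_le_of_le (n := fun _ => (1 : ℝ)) _ fun j _ => hβ v j).trans ?_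
    simp
  obtain ⟨A, hA⟩ : ∃ A, Tendsto (fun y => ∑ v ∈ FV nm hfin y,
      vt nm (fun v => ∑ j, β v j) τ v) atTop (𝓝 A) := by
    refine tendsto_places hN hfin (fun v => ∑ j, β v j) N htr Pool.Agent.W350.EdgeNF.hlow
      (ap (bb β)) (fun p hp => grp_eq β ⟨p, hp⟩) τ ?_
    unfold divSet at hτ
    simpa using hτ
  have hσ : ∀ z : ℂ, 0 ≤ z.re → 1 ≤ (((1 : ℝ) : ℂ) + τ * Complex.I + z).re := by
    intro z hz
    simp
    exact hz
  obtain ⟨l, h1, h2, h3⟩ := at_point_V hN hfin Pool.Agent.W350.EdgeNF.hpow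
    (fun v => ∑ j, β v j) N htr ∅ (fc β) (fun v s => rem (nm v) (β v) s) N 1 τ
    (fun v s hs => nrem (Pool.Agent.TH339.MP.two_le_nm v) (hβ v) hs)
    (fun v => ((crem (Pool.Agent.TH339.MP.two_le_nm v) (hβ v) (by
      have := hσ 0 (by simp)
      rwa [add_zero] at this)).tendsto).mono_left nhdsWithin_le_nhds)
    (fun v hv => absurd hv (Finset.notMem_empty v)) (fun v hv => absurd hv (Finset.notMem_empty v))
    (fun v _ z hz => by
      have e1 := fterm (Pool.Agent.TH339.MP.two_le_nm v) (∑ j, β v j) τ z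
      have e2 := fac_eq (Pool.Agent.TH339.MP.two_le_nm v) (hβ v) (hσ z hz)
      rw [← e1] at e2
      exact e2) A hA
  have h4 : l = Complex.exp (bl (bb β) τ) := by
    have e1 := h3 1
    have e2 := ((Complex.continuous_exp.tendsto _).comp
      (bl_angle (norm_bb hβ) hτ 1))
    have hsub : Tendsto (fun z : ℂ => ((1 : ℝ) : ℂ) + τ * Complex.I + z)
        (𝓝[{z : ℂ | 0 < z.re ∧ ‖z‖ ≤ 1 * z.re}] 0)
        (𝓝[{s : ℂ | 1 < s.re ∧ ‖s - (((1 : ℝ) : ℂ) + τ * Complex.I)‖ ≤ 1 * (s.re - 1)}]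
          (((1 : ℝ) : ℂ) + τ * Complex.I)) := by
      refine tendsto_nhdsWithin_iff.2 ⟨?_, ?_⟩
      · have e3 : Tendsto (fun z : ℂ => ((1 : ℝ) : ℂ) + τ * Complex.I + z) (𝓝 0)
            (𝓝 (((1 : ℝ) : ℂ) + τ * Complex.I + 0)) := (continuous_const.add continuous_id).tendsto 0
        rw [add_zero] at e3
        exact e3.mono_left nhdsWithin_le_nhds
      · filter_upwards [self_mem_nhdsWithin] with z hz
        have hz1 : 0 < z.re := hz.1
        have hre : (((1 : ℝ) : ℂ) + τ * Complex.I + z).re = 1 + z.re := by simp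
        refine ⟨by rw [hre]; linarith, ?_⟩
        rw [hre, add_sub_cancel_left, add_sub_cancel_left]
        exact hz.2
    have e4 := e1.comp hsub
    have hne : (𝓝[{z : ℂ | 0 < z.re ∧ ‖z‖ ≤ 1 * z.re}] (0 : ℂ)).NeBot := by
      have e5 : Tendsto (fun ε : ℝ => (ε : ℂ)) (𝓝[>] 0)
          (𝓝[{z : ℂ | 0 < z.re ∧ ‖z‖ ≤ 1 * z.re}] (0 : ℂ)) := by
        refine tendsto_nhdsWithin_iff.2 ⟨?_, ?_⟩
        · have e6 : Tendsto (fun ε : ℝ => (ε : ℂ)) (𝓝 0) (𝓝 ((0 : ℝ) : ℂ)) :=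
            Complex.continuous_ofReal.tendsto 0
          rw [Complex.ofReal_zero] at e6
          exact e6.mono_left nhdsWithin_le_nhds
        · filter_upwards [self_mem_nhdsWithin] with ε hε
          have hε' : (0 : ℝ) < ε := hε
          refine ⟨by simpa using hε', ?_⟩
          rw [one_mul, Complex.norm_real, Complex.ofReal_re, Real.norm_of_nonneg hε'.le]
      exact e5.neBot
    refine tendsto_nhds_unique e4 (e2.congr' ?_)
    filter_upwards [self_mem_nhdsWithin] with z hz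
    have hz1 : 0 < z.re := hz.1
    simp only [Function.comp_apply]
    have hre : 1 < (((1 : ℝ) : ℂ) + τ * Complex.I + z).re := by
      simp
      exact hz1
    have e6 := (hasProd_L hβ hre).tprod_eq
    unfold fc
    rw [e6]
    norm_num
  rw [← h4]
  have e7 : ((1 : ℝ) : ℂ) = 1 := Complex.ofReal_one
  rw [e7] at h2
  exact h2

end

end Pool.Agent.E8helper69.AP
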