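import Pool.Agent.E8helper69.AP.G
import Pool.Agent.E8helper69.AP.Defs

/-!
# The modulus on the edge
-/

set_option autoImplicit false

namespace Pool.Agent.E8helper69.AP

open Complex MeasureTheory Finset Filter Topology Set NumberField IsDedekindDomain
open scoped ComplexConjugate ENNReal
open Pool.Agent.TH339.MP
open Pool.Agent.W350.Edge (ps divSet dimH_divSet)
open Pool.Agent.W350.EdgeV (FV mem_FV)

section
variable {K : Type} [Field K] [NumberField K] {N : ℕ}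

open Classical in
/-- the normalised roots -/
noncomputable def nbv (w : ℝ) (S : Set (HeightOneSpectrum (𝓞 K)))
    (α : HeightOneSpectrum (𝓞 K) → Fin N → ℂ) (v : HeightOneSpectrum (𝓞 K)) (j : Fin N) : ℂ :=
  if v ∈ S then 0 else α v j / (((nm v : ℝ) ^ (w / 2) : ℝ) : ℂ)

variable {w : ℝ} {S : Set (HeightOneSpectrum (𝓞 K))} {α : HeightOneSpectrum (𝓞 K) → Fin N → ℂ}

lemma nm_pos' (v : HeightOneSpectrum (𝓞 K)) : (0 : ℝ) < nm v := by
  have := Pool.Agent.TH339.MP.two_le_nm v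
  exact_mod_cast (by omega : 0 < nm v)

lemma norm_nbv (hα : ∀ v, v ∉ S → ∀ j, ‖α v j‖ ≤ (Ideal.absNorm v.asIdeal : ℝ) ^ (w / 2)) (v) (j) :
    ‖nbv w S α v j‖ ≤ 1 := by
  unfold nbv
  split_ifs with h
  · simp
  · have h0 : 0 < (nm v : ℝ) ^ (w / 2) := Real.rpow_pos_of_pos (nm_pos' v) _
    rw [norm_div, Complex.norm_real, Real.norm_of_nonneg h0.le, div_le_one h0]
    exact hα v h j

lemma localFactor_eq (v : HeightOneSpectrum (𝓞 K)) (s : ℂ) :
    localFactor S α v (s + (w : ℂ) / 2) = fc (nbv w S α) v s := by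
  unfold localFactor fc nbv
  split_ifs with h
  · simp
  · refine Finset.prod_congr rfl fun j _ => ?_
    congr 2
    have hne : ((nm v : ℕ) : ℂ) ≠ 0 := by
      have := nm_pos' v
      exact_mod_cast this.ne'
    change α v j * ((nm v : ℕ) : ℂ) ^ (-(s + (w : ℂ) / 2)) = _
    rw [neg_add, cpow_add _ _ hne, Complex.ofReal_cpow (nm_pos' v).le, div_mul_eq_mul_div,
      mul_div_assoc]
    congr 1
    rw [cpow_neg _ ((w : ℂ) / 2)]
    push_cast
    simp only [div_eq_mul_inv]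

lemma edge_arg (w τ : ℝ) : (((w / 2 + 1 : ℝ) : ℂ) + τ * Complex.I) = (1 + τ * I) + (w : ℂ) / 2 := by
  push_cast
  ring

/-- the coefficients attached to the data -/
noncomputable abbrev cf (w : ℝ) (S : Set (HeightOneSpectrum (𝓞 K)))
    (α : HeightOneSpectrum (𝓞 K) → Fin N → ℂ) : PP → ℂ := bb (nbv w S α)

lemma norm_cf (hα : ∀ v, v ∉ S → ∀ j, ‖α v j‖ ≤ (Ideal.absNorm v.asIdeal : ℝ) ^ (w / 2)) (x : PP) :
    ‖cf w S α x‖ ≤ ((Module.finrank ℚ K : ℝ) * N) / (x.2 + 1 : ℕ) := norm_bb (norm_nbv hα) x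

lemma truncated_tendsto
    (hα : ∀ v, v ∉ S → ∀ j, ‖α v j‖ ≤ (Ideal.absNorm v.asIdeal : ℝ) ^ (w / 2)) {τ : ℝ}
    (hτ : τ ∉ divSet (ap (cf w S α))) :
    Tendsto (truncatedModulus S α (w / 2 + 1) τ) atTop
      (𝓝 (Real.exp (bl (cf w S α) τ).re)) := by
  have h1 := (prod_tendsto (norm_nbv hα) hτ).norm
  rw [Complex.norm_exp] at h1
  refine h1.congr fun x => ?_
  unfold truncatedModulus
  have hf : {v : HeightOneSpectrum (𝓞 K) | Ideal.absNorm v.asIdeal < x}.Finite :=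
    Pool.Agent.W350.EdgeNF.hfin x
  rw [finprod_mem_eq_finite_toFinset_prod _ hf, norm_prod]
  refine Finset.prod_congr rfl fun v _ => ?_
  rw [edge_arg, localFactor_eq]

lemma modulus_eq
    (hα : ∀ v, v ∉ S → ∀ j, ‖α v j‖ ≤ (Ideal.absNorm v.asIdeal : ℝ) ^ (w / 2)) {τ : ℝ}
    (hτ : τ ∉ divSet (ap (cf w S α))) :
    modulus S α (w / 2 + 1) τ = Real.exp (bl (cf w S α) τ).re :=
  (truncated_tendsto hα hτ).limUnder_eq

lemma log_modulus
    (hα : ∀ v, v ∉ S → ∀ j, ‖α v j‖ ≤ (Ideal.absNorm v.asIdeal : ℝ) ^ (w / 2)) {τ : ℝ}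
    (hτ : τ ∉ divSet (ap (cf w S α))) :
    Real.log (modulus S α (w / 2 + 1) τ) = (bl (cf w S α) τ).re := by
  rw [modulus_eq hα hτ, Real.log_exp]

/-- the exceptional set -/
lemma modulus_spec
    (hα : ∀ v, v ∉ S → ∀ j, ‖α v j‖ ≤ (Ideal.absNorm v.asIdeal : ℝ) ^ (w / 2)) :
    dimH {τ : ℝ | ¬ (0 < modulus S α (w / 2 + 1) τ ∧
      Tendsto (truncatedModulus S α (w / 2 + 1) τ) atTop (𝓝 (modulus S α (w / 2 + 1) τ)))} = 0 := by
  have h1 : dimH (divSet (ap (cf w S α))) = 0 :=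
    dimH_divSet _ _ (norm_ap (norm_cf hα))
  refine le_antisymm ?_ zero_le
  rw [← h1]
  refine dimH_mono fun τ hτ => ?_
  by_contra hcon
  apply hτ
  rw [modulus_eq hα hcon]
  exact ⟨Real.exp_pos _, truncated_tendsto hα hcon⟩

/-- the L-function -/
lemma LFun_eq
    (hα : ∀ v, v ∉ S → ∀ j, ‖α v j‖ ≤ (Ideal.absNorm v.asIdeal : ℝ) ^ (w / 2)) {s : ℂ}
    (hs : 1 < s.re) : LFun S α (s + (w : ℂ) / 2) = Complex.exp (FF (cf w S α) s) := by
  unfold LFun
  simp_rw [localFactor_eq]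
  exact (hasProd_L (norm_nbv hα) hs).tprod_eq

lemma recurrent_of_often {E : Set ℝ} (h : Often E) : Recurrent E := h

end

/-- **The comparison theorem.** -/
theorem comparison {K K' : Type} [Field K] [NumberField K] [Field K'] [NumberField K'] {N N' : ℕ}
    {w w' : ℝ} {S : Set (HeightOneSpectrum (𝓞 K))} {S' : Set (HeightOneSpectrum (𝓞 K'))}
    {α : HeightOneSpectrum (𝓞 K) → Fin N → ℂ} {α' : HeightOneSpectrum (𝓞 K') → Fin N' → ℂ}
    (hα : ∀ v, v ∉ S → ∀ j, ‖α v j‖ ≤ (Ideal.absNorm v.asIdeal : ℝ) ^ (w / 2))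
    (hα' : ∀ v, v ∉ S' → ∀ j, ‖α' v j‖ ≤ (Ideal.absNorm v.asIdeal : ℝ) ^ (w' / 2)) :
    (∀ s : ℂ, 1 < s.re → LFun S α (s + (w : ℂ) / 2) = LFun S' α' (s + (w' : ℂ) / 2)) ∨
    ∃ κ : ℝ, 1 < κ ∧
      Recurrent {τ | κ * modulus S' α' (w' / 2 + 1) τ < modulus S α (w / 2 + 1) τ} := by
  by_cases hne : cf w S α = cf w' S' α'
  · left
    intro s hs
    rw [LFun_eq hα hs, LFun_eq hα' hs, hne]
  · right
    obtain ⟨ε, hε, h1⟩ := rigid (norm_cf hα) (norm_cf hα') hne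
    refine ⟨Real.exp ε, Real.one_lt_exp_iff.2 hε, recurrent_of_often (h1.mono_ae ?_)⟩
    filter_upwards [ae_notMem (norm_cf hα), ae_notMem (norm_cf hα')] with τ h2 h3 h4
    have h5 : (bl (cf w' S' α') τ).re + ε < (bl (cf w S α) τ).re := h4
    change Real.exp ε * modulus S' α' (w' / 2 + 1) τ < modulus S α (w / 2 + 1) τ
    rw [modulus_eq hα h2, modulus_eq hα' h3, ← Real.exp_add]
    exact Real.exp_lt_exp.2 (by linarith)

end Pool.Agent.E8helper69.AP
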