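import Pool.Agent.E8helper69.AP.I

/-!
# Comparison of one Euler product with a product of others
-/

set_option autoImplicit false

namespace Pool.Agent.E8helper69.AP

open Complex MeasureTheory Finset Filter Topology Set NumberField IsDedekindDomain
open scoped ComplexConjugate ENNReal
open Pool.Agent.TH339.MP
open Pool.Agent.W350.Edge (ps divSet dimH_divSet)

section
variable {K₀ : Type} [Field K₀] [NumberField K₀] {N₀ : ℕ} {w₀ : ℝ}
  {S₀ : Set (HeightOneSpectrum (𝓞 K₀))} {α₀ : HeightOneSpectrum (𝓞 K₀) → Fin N₀ → ℂ}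
  {r : ℕ} {K : Fin r → Type} [∀ k, Field (K k)] [∀ k, NumberField (K k)]
  {N : Fin r → ℕ} {w : Fin r → ℝ} {S : ∀ k, Set (HeightOneSpectrum (𝓞 (K k)))}
  {α : ∀ k, HeightOneSpectrum (𝓞 (K k)) → Fin (N k) → ℂ}

/-- the coefficients of all the Euler products -/
noncomputable def ob (w₀ : ℝ) (S₀ : Set (HeightOneSpectrum (𝓞 K₀)))
    (α₀ : HeightOneSpectrum (𝓞 K₀) → Fin N₀ → ℂ) (w : Fin r → ℝ)
    (S : ∀ k, Set (HeightOneSpectrum (𝓞 (K k))))
    (α : ∀ k, HeightOneSpectrum (𝓞 (K k)) → Fin (N k) → ℂ) : Option (Fin r) → PP → ℂ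
  | none => cf w₀ S₀ α₀
  | some k => cf (w k) (S k) (α k)

/-- the bounds -/
noncomputable def oM (K₀ : Type) [Field K₀] [NumberField K₀] (N₀ : ℕ) (K : Fin r → Type)
    [∀ k, Field (K k)] [∀ k, NumberField (K k)] (N : Fin r → ℕ) : Option (Fin r) → ℝ
  | none => (Module.finrank ℚ K₀ : ℝ) * N₀
  | some k => (Module.finrank ℚ (K k) : ℝ) * N k

/-- the exponents -/
def oc (a₀ : ℤ) (a : Fin r → ℤ) : Option (Fin r) → ℤ
  | none => a₀
  | some k => -a k

theorem compare
    (hα₀ : ∀ v, v ∉ S₀ → ∀ j, ‖α₀ v j‖ ≤ (Ideal.absNorm v.asIdeal : ℝ) ^ (w₀ / 2))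
    (hα : ∀ k v, v ∉ S k → ∀ j, ‖α k v j‖ ≤ (Ideal.absNorm v.asIdeal : ℝ) ^ (w k / 2))
    (a₀ : ℤ) (a : Fin r → ℤ) :
    (∀ s : ℂ, 1 < s.re → LFun S₀ α₀ (s + (w₀ : ℂ) / 2) ^ a₀ =
      ∏ k, LFun (S k) (α k) (s + (w k : ℂ) / 2) ^ a k) ∨
    ∃ κ : ℝ, 1 < κ ∧
      Recurrent {τ | κ * ∏ k, modulus (S k) (α k) (w k / 2 + 1) τ ^ a k <
        modulus S₀ α₀ (w₀ / 2 + 1) τ ^ a₀} ∧
      Recurrent {τ | κ * modulus S₀ α₀ (w₀ / 2 + 1) τ ^ a₀ <
        ∏ k, modulus (S k) (α k) (w k / 2 + 1) τ ^ a k} := by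
  set b : Option (Fin r) → PP → ℂ := ob w₀ S₀ α₀ w S α with hbdef
  set c : Option (Fin r) → ℂ := fun o => ((oc a₀ a o : ℤ) : ℂ) with hc
  have hb : ∀ o x, ‖b o x‖ ≤ oM K₀ N₀ K N o / (x.2 + 1 : ℕ) := by
    rintro (_ | k) x
    · exact norm_cf hα₀ x
    · exact norm_cf (hα k) x
  by_cases hne : (fun x => ∑ o, c o * b o x) = 0
  · left
    intro s hs
    have h1 := FF_lin hb c hs
    rw [hne] at h1
    have h2 : FF (0 : PP → ℂ) s = 0 := by
      unfold FF tm
      simp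
    rw [h2, Fintype.sum_option] at h1
    have e1 : c none * FF (b none) s = ((a₀ : ℤ) : ℂ) * FF (cf w₀ S₀ α₀) s := rfl
    have e2 : ∀ k, c (some k) * FF (b (some k)) s =
        -(((a k : ℤ) : ℂ) * FF (cf (w k) (S k) (α k)) s) := by
      intro k
      have : c (some k) = -((a k : ℤ) : ℂ) := by
        rw [hc]
        change ((-a k : ℤ) : ℂ) = _
        push_cast
        rfl
      rw [this, neg_mul]
      rfl
    rw [e1] at h1
    simp_rw [e2] at h1
    rw [Finset.sum_neg_distrib] at h1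
    have e3 : ((a₀ : ℤ) : ℂ) * FF (cf w₀ S₀ α₀) s =
        ∑ k, ((a k : ℤ) : ℂ) * FF (cf (w k) (S k) (α k)) s := by
      linear_combination -h1
    rw [LFun_eq hα₀ hs, ← Complex.exp_int_mul, e3, Complex.exp_sum]
    refine Finset.prod_congr rfl fun k _ => ?_
    rw [LFun_eq (hα k) hs, ← Complex.exp_int_mul]
  · right
    obtain ⟨ε, hε, h1, h2⟩ := two_sided (norm_lin hb c) hne
    have hae := bl_lin hb c
    have hprod : ∀ τ : ℝ, (∀ o, τ ∉ divSet (ap (b o))) →
        bl (fun x => ∑ o, c o * b o x) τ = ∑ o, c o * bl (b o) τ →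
        0 < ∏ k, modulus (S k) (α k) (w k / 2 + 1) τ ^ a k ∧
        modulus S₀ α₀ (w₀ / 2 + 1) τ ^ a₀ =
          Real.exp (bl (fun x => ∑ o, c o * b o x) τ).re *
            ∏ k, modulus (S k) (α k) (w k / 2 + 1) τ ^ a k := by
      intro τ h3 h4
      have e1 : modulus S₀ α₀ (w₀ / 2 + 1) τ ^ a₀ =
          Real.exp (((a₀ : ℤ) : ℝ) * (bl (b none) τ).re) := by
        rw [modulus_eq hα₀ (h3 none), ← Real.rpow_intCast, ← Real.exp_mul, mul_comm]
        rfl
      have e2 : ∏ k, modulus (S k) (α k) (w k / 2 + 1) τ ^ a k =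
          Real.exp (∑ k, ((a k : ℤ) : ℝ) * (bl (b (some k)) τ).re) := by
        rw [Real.exp_sum]
        refine Finset.prod_congr rfl fun k _ => ?_
        rw [modulus_eq (hα k) (h3 (some k)), ← Real.rpow_intCast, ← Real.exp_mul, mul_comm]
        rfl
      refine ⟨by rw [e2]; exact Real.exp_pos _, ?_⟩
      rw [e1, e2, ← Real.exp_add, h4]
      congr 1
      rw [Complex.re_sum, Fintype.sum_option]
      have e3 : (c none * bl (b none) τ).re = ((a₀ : ℤ) : ℝ) * (bl (b none) τ).re := by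
        have : c none = (((a₀ : ℤ) : ℝ) : ℂ) := by
          rw [hc]
          change ((a₀ : ℤ) : ℂ) = _
          push_cast
          rfl
        rw [this, Complex.re_ofReal_mul]
      have e4 : ∀ k, (c (some k) * bl (b (some k)) τ).re =
          -(((a k : ℤ) : ℝ) * (bl (b (some k)) τ).re) := by
        intro k
        have : c (some k) = ((-((a k : ℤ) : ℝ) : ℝ) : ℂ) := by
          rw [hc]
          change ((-a k : ℤ) : ℂ) = _
          push_cast
          rfl
        rw [this, Complex.re_ofReal_mul, neg_mul]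
      rw [e3]
      simp_rw [e4]
      rw [Finset.sum_neg_distrib]
      ring
    refine ⟨Real.exp ε, Real.one_lt_exp_iff.2 hε, recurrent_of_often (h1.mono_ae ?_),
      recurrent_of_often (h2.mono_ae ?_)⟩
    · filter_upwards [hae] with τ h3 h4
      obtain ⟨h5, h6⟩ := hprod τ h3.1 h3.2
      have h4' : ε < (bl (fun x => ∑ o, c o * b o x) τ).re := h4
      change Real.exp ε * _ < _
      rw [h6]
      exact mul_lt_mul_of_pos_right (Real.exp_lt_exp.2 h4') h5
    · filter_upwards [hae] with τ h3 h4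
      obtain ⟨h5, h6⟩ := hprod τ h3.1 h3.2
      have h4' : (bl (fun x => ∑ o, c o * b o x) τ).re < -ε := h4
      change Real.exp ε * _ < _
      rw [h6, ← mul_assoc, ← Real.exp_add]
      refine mul_lt_of_lt_one_left h5 ?_
      rw [Real.exp_lt_one_iff]
      linarith

end

end Pool.Agent.E8helper69.AP
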